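import Mathlib

/-! # LAUGWITZ n = 3 project (MP_7dd29b_gt), owner helper935.

Definitions and exact task statements.  `F` is a Minkowski norm on `ℝ³`, `phi = F²/2`,
`G = Hess phi`, `cc, dd, ee` = third, fourth, fifth derivatives, `hh = G⁻¹`. -/

set_option autoImplicit false
open Matrix

namespace Pool.Agent.H935R3.LW

abbrev E3 := Fin 3 → ℝ
abbrev A2 := Fin 3 → Fin 3 → ℝ
abbrev A3 := Fin 3 → Fin 3 → Fin 3 → ℝ
abbrev A4 := Fin 3 → Fin 3 → Fin 3 → Fin 3 → ℝ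
abbrev A5 := Fin 3 → Fin 3 → Fin 3 → Fin 3 → Fin 3 → ℝ

/-- partial derivative -/
noncomputable def pd (i : Fin 3) (f : E3 → ℝ) (x : E3) : ℝ := fderiv ℝ f x (Pi.single i 1)

noncomputable def phi (F : E3 → ℝ) (x : E3) : ℝ := F x ^ 2 / 2
noncomputable def G (F : E3 → ℝ) (x : E3) : Matrix (Fin 3) (Fin 3) ℝ :=
  Matrix.of fun i j => pd j (pd i (phi F)) x
noncomputable def cc (F : E3 → ℝ) (x : E3) : A3 := fun i j k => pd k (fun y => G F y i j) x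
noncomputable def dd (F : E3 → ℝ) (x : E3) : A4 := fun i j k l => pd l (fun y => cc F y i j k) x
noncomputable def ee (F : E3 → ℝ) (x : E3) : A5 :=
  fun i j k l m => pd m (fun y => dd F y i j k l) x
noncomputable def hh (F : E3 → ℝ) (x : E3) : A2 := fun i j => (G F x)⁻¹ i j

/-- the standing hypotheses -/
structure Hyp (F : E3 → ℝ) : Prop where
  smooth : ContDiffOn ℝ ((⊤ : ℕ∞) : WithTop ℕ∞) F {x | x ≠ 0}
  pos : ∀ x : E3, x ≠ 0 → 0 < F x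
  hom : ∀ (t : ℝ) (x : E3), 0 ≤ t → F (t • x) = t * F x
  posdef : ∀ x : E3, x ≠ 0 → (G F x).PosDef
  flat : ∀ x : E3, x ≠ 0 → ∀ i j k l : Fin 3,
    ∑ p, ∑ q, hh F x p q * (cc F x i k p * cc F x j l q - cc F x i l p * cc F x j k q) = 0

/-! ## array level formulas (pure algebra) -/

def tauA (h : A2) (c : A3) (a : Fin 3) : ℝ := ∑ i, ∑ j, h i j * c i j a
def thA (h : A2) (c : A3) (d : A4) (a b : Fin 3) : ℝ :=
  (∑ i, ∑ j, h i j * d i j a b) - ∑ i, ∑ j, ∑ p, ∑ q, h i p * h j q * c p q b * c i j a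
def htA (h : A2) (c : A3) (a : Fin 3) : ℝ := ∑ b, h a b * tauA h c b
def nA (h : A2) (c : A3) : ℝ := ∑ a, tauA h c a * htA h c a
def hthA (h : A2) (c : A3) (d : A4) (a b : Fin 3) : ℝ := ∑ p, ∑ q, h a p * thA h c d p q * h q b
def uA (h : A2) (c : A3) (d : A4) (a : Fin 3) : ℝ :=
  (∑ b, thA h c d a b * htA h c b) - ∑ b, ∑ k, c a b k * hthA h c d b k
def vA (h : A2) (c : A3) (d : A4) (a : Fin 3) : ℝ := ∑ b, h a b * uA h c d b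
def quA (h : A2) (c : A3) (d : A4) : ℝ := ∑ a, ∑ b, h a b * (uA h c d a * uA h c d b)
/-- the vector field `V_t` (`q` stands for `F²`) -/
noncomputable def VtA (h : A2) (c : A3) (d : A4) (x : E3) (q : ℝ) (a : Fin 3) : ℝ :=
  vA h c d a / nA h c + x a / q
noncomputable def sA (h : A2) (c : A3) (d : A4) (q : ℝ) : ℝ :=
  (quA h c d / nA h c ^ 2 - 1 / q) / nA h c

/-! formal derivatives of the above in a direction with derivatives `h' c' d' x' q'` -/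

def tauD (h : A2) (c : A3) (h' : A2) (c' : A3) (a : Fin 3) : ℝ :=
  ∑ i, ∑ j, (h' i j * c i j a + h i j * c' i j a)
def thD (h : A2) (c : A3) (d : A4) (h' : A2) (c' : A3) (d' : A4) (a b : Fin 3) : ℝ :=
  (∑ i, ∑ j, (h' i j * d i j a b + h i j * d' i j a b)) -
   ∑ i, ∑ j, ∑ p, ∑ q, (h' i p * h j q * c p q b * c i j a + h i p * h' j q * c p q b * c i j a
      + h i p * h j q * c' p q b * c i j a + h i p * h j q * c p q b * c' i j a)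
def htD (h : A2) (c : A3) (h' : A2) (c' : A3) (a : Fin 3) : ℝ :=
  ∑ b, (h' a b * tauA h c b + h a b * tauD h c h' c' b)
def nD (h : A2) (c : A3) (h' : A2) (c' : A3) : ℝ :=
  ∑ a, (tauD h c h' c' a * htA h c a + tauA h c a * htD h c h' c' a)
def hthD (h : A2) (c : A3) (d : A4) (h' : A2) (c' : A3) (d' : A4) (a b : Fin 3) : ℝ :=
  ∑ p, ∑ q, (h' a p * thA h c d p q * h q b + h a p * thD h c d h' c' d' p q * h q b
    + h a p * thA h c d p q * h' q b)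
def uD (h : A2) (c : A3) (d : A4) (h' : A2) (c' : A3) (d' : A4) (a : Fin 3) : ℝ :=
  (∑ b, (thD h c d h' c' d' a b * htA h c b + thA h c d a b * htD h c h' c' b)) -
   ∑ b, ∑ k, (c' a b k * hthA h c d b k + c a b k * hthD h c d h' c' d' b k)
def vD (h : A2) (c : A3) (d : A4) (h' : A2) (c' : A3) (d' : A4) (a : Fin 3) : ℝ :=
  ∑ b, (h' a b * uA h c d b + h a b * uD h c d h' c' d' b)
def quD (h : A2) (c : A3) (d : A4) (h' : A2) (c' : A3) (d' : A4) : ℝ :=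
  ∑ a, ∑ b, (h' a b * (uA h c d a * uA h c d b)
    + h a b * (uD h c d h' c' d' a * uA h c d b + uA h c d a * uD h c d h' c' d' b))
noncomputable def VtD (h : A2) (c : A3) (d : A4) (x : E3) (q : ℝ)
    (h' : A2) (c' : A3) (d' : A4) (x' : E3) (q' : ℝ) (a : Fin 3) : ℝ :=
  (vD h c d h' c' d' a * nA h c - vA h c d a * nD h c h' c') / nA h c ^ 2
    + (x' a * q - x a * q') / q ^ 2
noncomputable def sD (h : A2) (c : A3) (d : A4) (q : ℝ)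
    (h' : A2) (c' : A3) (d' : A4) (q' : ℝ) : ℝ :=
  (((quD h c d h' c' d' * nA h c ^ 2 - quA h c d * (2 * nA h c * nD h c h' c')) / nA h c ^ 4
      + q' / q ^ 2) * nA h c - (quA h c d / nA h c ^ 2 - 1 / q) * nD h c h' c') / nA h c ^ 2

/-! ## function level objects -/

noncomputable def tau (F : E3 → ℝ) (a : Fin 3) (x : E3) : ℝ := tauA (hh F x) (cc F x) a
noncomputable def NN (F : E3 → ℝ) (x : E3) : ℝ := nA (hh F x) (cc F x)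
noncomputable def Vt (F : E3 → ℝ) (a : Fin 3) (x : E3) : ℝ :=
  VtA (hh F x) (cc F x) (dd F x) x (F x ^ 2) a
noncomputable def ss (F : E3 → ℝ) (x : E3) : ℝ := sA (hh F x) (cc F x) (dd F x) (F x ^ 2)
noncomputable def ww (F : E3 → ℝ) (x : E3) : ℝ := Real.sqrt (G F x).det
noncomputable def Zf (F : E3 → ℝ) (a : Fin 3) (x : E3) : ℝ := Vt F a x / Real.sqrt (1 + ss F x)

/-! ## TASKS -/

/-- BRIDGE: the hypotheses in the form of the frozen statement (n = 3) give `Hyp F`. -/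
def TaskBridge : Prop := ∀ F : (Fin 3 → ℝ) → ℝ,
    ContDiffOn ℝ ((⊤ : ℕ∞) : WithTop ℕ∞) F {x | x ≠ 0} →
    (∀ x : Fin 3 → ℝ, x ≠ 0 → 0 < F x) →
    (∀ (t : ℝ) (x : Fin 3 → ℝ), 0 ≤ t → F (t • x) = t * F x) →
    (∀ x : Fin 3 → ℝ, x ≠ 0 →
      (Matrix.of fun i j : Fin 3 =>
        iteratedFDeriv ℝ 2 (fun y : Fin 3 → ℝ => F y ^ 2 / 2) x
          ![(Pi.single i (1 : ℝ) : Fin 3 → ℝ), (Pi.single j (1 : ℝ) : Fin 3 → ℝ)]).PosDef) →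
    (∀ x : Fin 3 → ℝ, x ≠ 0 → ∀ i j k l : Fin 3,
      ∑ p : Fin 3, ∑ q : Fin 3,
        (Matrix.of fun a b : Fin 3 =>
          iteratedFDeriv ℝ 2 (fun y : Fin 3 → ℝ => F y ^ 2 / 2) x
            ![(Pi.single a (1 : ℝ) : Fin 3 → ℝ), (Pi.single b (1 : ℝ) : Fin 3 → ℝ)])⁻¹ p q *
        (iteratedFDeriv ℝ 3 (fun y : Fin 3 → ℝ => F y ^ 2 / 2) x
            ![(Pi.single i (1 : ℝ) : Fin 3 → ℝ), (Pi.single k (1 : ℝ) : Fin 3 → ℝ),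
              (Pi.single p (1 : ℝ) : Fin 3 → ℝ)] *
          iteratedFDeriv ℝ 3 (fun y : Fin 3 → ℝ => F y ^ 2 / 2) x
            ![(Pi.single j (1 : ℝ) : Fin 3 → ℝ), (Pi.single l (1 : ℝ) : Fin 3 → ℝ),
              (Pi.single q (1 : ℝ) : Fin 3 → ℝ)] -
         iteratedFDeriv ℝ 3 (fun y : Fin 3 → ℝ => F y ^ 2 / 2) x
            ![(Pi.single i (1 : ℝ) : Fin 3 → ℝ), (Pi.single l (1 : ℝ) : Fin 3 → ℝ),
              (Pi.single p (1 : ℝ) : Fin 3 → ℝ)] *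
          iteratedFDeriv ℝ 3 (fun y : Fin 3 → ℝ => F y ^ 2 / 2) x
            ![(Pi.single j (1 : ℝ) : Fin 3 → ℝ), (Pi.single k (1 : ℝ) : Fin 3 → ℝ),
              (Pi.single q (1 : ℝ) : Fin 3 → ℝ)]) = 0) →
    Hyp F

/-- BASIC: smoothness and symmetry of all coefficient functions. -/
def TaskBasic : Prop := ∀ F : E3 → ℝ, Hyp F →
  ContDiffOn ℝ ((⊤ : ℕ∞) : WithTop ℕ∞) (phi F) {x | x ≠ 0} ∧
  (∀ i, ContDiffOn ℝ ((⊤ : ℕ∞) : WithTop ℕ∞) (pd i (phi F)) {x | x ≠ 0}) ∧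
  (∀ i j, ContDiffOn ℝ ((⊤ : ℕ∞) : WithTop ℕ∞) (fun x => G F x i j) {x | x ≠ 0}) ∧
  (∀ i j k, ContDiffOn ℝ ((⊤ : ℕ∞) : WithTop ℕ∞) (fun x => cc F x i j k) {x | x ≠ 0}) ∧
  (∀ i j k l, ContDiffOn ℝ ((⊤ : ℕ∞) : WithTop ℕ∞) (fun x => dd F x i j k l) {x | x ≠ 0}) ∧
  (∀ i j k l m, ContDiffOn ℝ ((⊤ : ℕ∞) : WithTop ℕ∞) (fun x => ee F x i j k l m) {x | x ≠ 0}) ∧
  (∀ i j, ContDiffOn ℝ ((⊤ : ℕ∞) : WithTop ℕ∞) (fun x => hh F x i j) {x | x ≠ 0}) ∧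
  (∀ x, x ≠ 0 →
    (∀ i j, G F x i j = G F x j i) ∧ (∀ i j, hh F x i j = hh F x j i) ∧
    (∀ i j k, cc F x i j k = cc F x j i k) ∧ (∀ i j k, cc F x i j k = cc F x i k j) ∧
    (∀ i j k l, dd F x i j k l = dd F x j i k l) ∧ (∀ i j k l, dd F x i j k l = dd F x i k j l) ∧
    (∀ i j k l, dd F x i j k l = dd F x i j l k) ∧
    (∀ i j k l m, ee F x i j k l m = ee F x j i k l m) ∧
    (∀ i j k l m, ee F x i j k l m = ee F x i k j l m) ∧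
    (∀ i j k l m, ee F x i j k l m = ee F x i j l k m) ∧
    (∀ i j k l m, ee F x i j k l m = ee F x i j k m l) ∧
    (∀ i j k, pd k (fun y => hh F y i j) x = -∑ p, ∑ q, hh F x i p * cc F x p q k * hh F x q j))

/-- HOM: Euler relations. -/
def TaskHom : Prop := TaskBasic → ∀ F : E3 → ℝ, Hyp F → ∀ x : E3, x ≠ 0 →
  (∀ i, ∑ j, G F x i j * x j = pd i (phi F) x) ∧
  (∑ i, pd i (phi F) x * x i = F x ^ 2) ∧
  (∀ i j, ∑ k, cc F x i j k * x k = 0) ∧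
  (∀ i j k, ∑ l, dd F x i j k l * x l = -cc F x i j k) ∧
  (∀ i j k l, ∑ m, ee F x i j k l m * x m = -(2 * dd F x i j k l)) ∧
  (∀ k, pd k (fun y => F y ^ 2) x = 2 * ∑ j, G F x k j * x j)

/-- NORM: linear algebra normal form at a point. -/
def TaskNorm : Prop := ∀ (g : Matrix (Fin 3) (Fin 3) ℝ) (c : A3) (x : E3) (f : ℝ), g.PosDef →
  (∀ i j k, c i j k = c j i k) → (∀ i j k, c i j k = c i k j) →
  (∀ i j k l, ∑ p, ∑ q, g⁻¹ p q * (c i k p * c j l q - c i l p * c j k q) = 0) →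
  (∀ i j, ∑ k, c i j k * x k = 0) → 0 < f → (∑ i, ∑ j, g i j * x j * x i = f ^ 2) →
  ∃ P : Matrix (Fin 3) (Fin 3) ℝ, P.det ≠ 0 ∧ Pᵀ * g * P = 1 ∧ (∀ i, x i = f * P i 2) ∧
    (∑ a, ∑ b, ∑ k, P a 0 * P b 0 * P k 1 * c a b k = 0) ∧
    (∑ a, ∑ b, ∑ k, P a 0 * P b 1 * P k 1 * c a b k = 0)

/-- COMP: composition with an invertible matrix. -/
def TaskComp : Prop := TaskBasic → ∀ (F : E3 → ℝ), Hyp F →
  ∀ P : Matrix (Fin 3) (Fin 3) ℝ, P.det ≠ 0 →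
  Hyp (fun y => F (P *ᵥ y)) ∧ ∀ y : E3, y ≠ 0 → P *ᵥ y ≠ 0 ∧
    G (fun y => F (P *ᵥ y)) y = Pᵀ * G F (P *ᵥ y) * P ∧
    (∀ i j k, cc (fun y => F (P *ᵥ y)) y i j k =
      ∑ a, ∑ b, ∑ m, P a i * P b j * P m k * cc F (P *ᵥ y) a b m) ∧
    (∀ i j k l, dd (fun y => F (P *ᵥ y)) y i j k l =
      ∑ a, ∑ b, ∑ m, ∑ n, P a i * P b j * P m k * P n l * dd F (P *ᵥ y) a b m n)

/-- NAT: naturality of the array level formulas. -/
def TaskNat : Prop := ∀ (P : Matrix (Fin 3) (Fin 3) ℝ) (h h₁ : A2) (c c₁ : A3) (d d₁ : A4)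
    (x x₁ : E3) (q : ℝ), P.det ≠ 0 →
  (∀ a b, h a b = ∑ i, ∑ j, P a i * P b j * h₁ i j) →
  (∀ i j k, c₁ i j k = ∑ a, ∑ b, ∑ m, P a i * P b j * P m k * c a b m) →
  (∀ i j k l, d₁ i j k l = ∑ a, ∑ b, ∑ m, ∑ n, P a i * P b j * P m k * P n l * d a b m n) →
  x = P *ᵥ x₁ →
  (∀ a, tauA h₁ c₁ a = ∑ i, P i a * tauA h c i) ∧ nA h₁ c₁ = nA h c ∧
  (∀ a, VtA h c d x q a = ∑ i, P a i * VtA h₁ c₁ d₁ x₁ q i) ∧ sA h₁ c₁ d₁ q = sA h c d q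

/-- FLATD: first and second derivatives of the flatness relation at a normalised point. -/
def TaskFlatD : Prop := TaskBasic → TaskHom → ∀ F : E3 → ℝ, Hyp F → ∀ f : ℝ, 0 < f →
  ∀ x : E3, x = Pi.single 2 f → G F x = 1 → cc F x 0 0 1 = 0 → cc F x 0 1 1 = 0 →
  ∀ l1 l2 a p q r b E1 E2 E3' E4 : ℝ, l1 = cc F x 0 0 0 → l2 = cc F x 1 1 1 →
   a = dd F x 0 0 0 0 → p = dd F x 0 0 0 1 → q = dd F x 0 0 1 1 → r = dd F x 0 1 1 1 →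
   b = dd F x 1 1 1 1 → E1 = ee F x 0 0 0 0 1 → E2 = ee F x 0 0 0 1 1 →
   E3' = ee F x 0 0 1 1 1 → E4 = ee F x 0 1 1 1 1 →
   l2 * p + l1 * q = 0 ∧ l2 * q + l1 * r = 0 ∧
   l1 * E2 + l2 * E1 - l1 * l2 * p - 2 * l1 ^ 2 * q + 2 * a * q - 2 * p ^ 2 + 2 * p * r
     - 2 * q ^ 2 = 0 ∧
   l1 * E3' + l2 * E2 - l1 * l2 * q - l1 ^ 2 * r - l2 ^ 2 * p + a * r - p * q + p * b - q * r
     + l1 * l2 / f ^ 2 = 0 ∧
   l1 * E4 + l2 * E3' - l1 * l2 * r - 2 * l2 ^ 2 * q + 2 * p * r - 2 * q ^ 2 + 2 * q * b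
     - 2 * r ^ 2 = 0

/-- ALG: the final algebraic identities at a normalised point. -/
def TaskAlg : Prop := ∀ (c : A3) (d : A4) (e : A5) (f l1 l2 a p q r b E1 E2 E3' E4 : ℝ), 0 < f →
  (∀ i j k, c i j k = c j i k) → (∀ i j k, c i j k = c i k j) →
  (∀ i j k l, d i j k l = d j i k l) → (∀ i j k l, d i j k l = d i k j l) →
  (∀ i j k l, d i j k l = d i j l k) →
  (∀ i j k l m, e i j k l m = e j i k l m) → (∀ i j k l m, e i j k l m = e i k j l m) →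
  (∀ i j k l m, e i j k l m = e i j l k m) → (∀ i j k l m, e i j k l m = e i j k m l) →
  (∀ i j, c i j 2 = 0) → (∀ i j k, d i j k 2 = -c i j k / f) →
  (∀ i j k l, e i j k l 2 = -(2 * d i j k l) / f) →
  c 0 0 1 = 0 → c 0 1 1 = 0 → l1 = c 0 0 0 → l2 = c 1 1 1 →
   a = d 0 0 0 0 → p = d 0 0 0 1 → q = d 0 0 1 1 → r = d 0 1 1 1 →
   b = d 1 1 1 1 → E1 = e 0 0 0 0 1 → E2 = e 0 0 0 1 1 →
   E3' = e 0 0 1 1 1 → E4 = e 0 1 1 1 1 →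
   l1 ^ 2 + l2 ^ 2 ≠ 0 → l2 * p + l1 * q = 0 → l2 * q + l1 * r = 0 →
   l1 * E2 + l2 * E1 - l1 * l2 * p - 2 * l1 ^ 2 * q + 2 * a * q - 2 * p ^ 2 + 2 * p * r
     - 2 * q ^ 2 = 0 →
   l1 * E3' + l2 * E2 - l1 * l2 * q - l1 ^ 2 * r - l2 ^ 2 * p + a * r - p * q + p * b - q * r
     + l1 * l2 / f ^ 2 = 0 →
   l1 * E4 + l2 * E3' - l1 * l2 * r - 2 * l2 ^ 2 * q + 2 * p * r - 2 * q ^ 2 + 2 * q * b
     - 2 * r ^ 2 = 0 →
  (∑ k, VtD (fun i j => if i = j then 1 else 0) c d (Pi.single 2 f) (f ^ 2)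
      (fun i j => -c i j k) (fun i j m => d i j m k) (fun i j m n => e i j m n k)
      (Pi.single k 1) (if k = 2 then 2 * f else 0) k)
    + 1 / 2 * ∑ k, tauA (fun i j => if i = j then 1 else 0) c k *
        VtA (fun i j => if i = j then 1 else 0) c d (Pi.single 2 f) (f ^ 2) k = 1 / f ^ 2 ∧
  (∑ k, VtA (fun i j => if i = j then 1 else 0) c d (Pi.single 2 f) (f ^ 2) k *
      sD (fun i j => if i = j then 1 else 0) c d (f ^ 2)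
      (fun i j => -c i j k) (fun i j m => d i j m k) (fun i j m n => e i j m n k)
      (if k = 2 then 2 * f else 0))
    = 2 * sA (fun i j => if i = j then 1 else 0) c d (f ^ 2) / f ^ 2

/-- DER: derivatives of `Vt` and `ss`. -/
def TaskDer : Prop := TaskBasic → ∀ F : E3 → ℝ, Hyp F → ∀ x : E3, x ≠ 0 → NN F x ≠ 0 →
  ∀ k : Fin 3,
  (∀ a, pd k (Vt F a) x = VtD (hh F x) (cc F x) (dd F x) x (F x ^ 2)
    (fun i j => -∑ p, ∑ q, hh F x i p * cc F x p q k * hh F x q j)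
    (fun i j m => dd F x i j m k) (fun i j m n => ee F x i j m n k) (Pi.single k 1)
    (pd k (fun y => F y ^ 2) x) a) ∧
  pd k (ss F) x = sD (hh F x) (cc F x) (dd F x) (F x ^ 2)
    (fun i j => -∑ p, ∑ q, hh F x i p * cc F x p q k * hh F x q j)
    (fun i j m => dd F x i j m k) (fun i j m n => ee F x i j m n k)
    (pd k (fun y => F y ^ 2) x)

/-- POS: norm of `Vt`, nonnegativity, tangency. -/
def TaskPos : Prop := TaskBasic → TaskHom → ∀ F : E3 → ℝ, Hyp F → ∀ x : E3, x ≠ 0 →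
  (0 ≤ NN F x) ∧ (NN F x ≠ 0 →
    (∑ a, ∑ b, G F x a b * Vt F a x * Vt F b x = ss F x * NN F x) ∧ 0 ≤ ss F x ∧
    (∑ a, pd a (phi F) x * Vt F a x = 0))

/-- SM: smoothness of the derived objects and the derivative of `ww = sqrt (det G)`. -/
def TaskSm : Prop := TaskBasic → ∀ F : E3 → ℝ, Hyp F →
  ContDiffOn ℝ ((⊤ : ℕ∞) : WithTop ℕ∞) (NN F) {x | x ≠ 0} ∧
  (∀ a, ContDiffOn ℝ ((⊤ : ℕ∞) : WithTop ℕ∞) (Vt F a) {x | x ≠ 0 ∧ NN F x ≠ 0}) ∧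
  ContDiffOn ℝ ((⊤ : ℕ∞) : WithTop ℕ∞) (ss F) {x | x ≠ 0 ∧ NN F x ≠ 0} ∧
  ContDiffOn ℝ ((⊤ : ℕ∞) : WithTop ℕ∞) (ww F) {x | x ≠ 0} ∧
  (∀ x, x ≠ 0 → 0 < ww F x) ∧
  (∀ x, x ≠ 0 → ∀ k, pd k (ww F) x = 1 / 2 * tau F k x * ww F x)

/-- BD: `|Z(N)| ≤ C N` on compact shells. -/
def TaskBd : Prop := TaskBasic → ∀ F : E3 → ℝ, Hyp F → ∃ C : ℝ, ∀ x : E3,
  1 ≤ phi F x → phi F x ≤ 3 → ∀ Z : E3, (∑ a, ∑ b, G F x a b * Z a * Z b ≤ NN F x) →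
  |∑ a, Z a * pd a (NN F) x| ≤ C * NN F x

/-- AN: the analytic part (divergence theorem with cutoffs). -/
def TaskAn : Prop := TaskBasic → ∀ (F : E3 → ℝ), Hyp F →
  ∀ (T w κ : E3 → ℝ) (Z : Fin 3 → E3 → ℝ) (C : ℝ),
  ContDiffOn ℝ 1 T {x | x ≠ 0} → (∀ x, x ≠ 0 → 0 ≤ T x) →
  ContDiffOn ℝ 1 w {x | x ≠ 0} → (∀ x, x ≠ 0 → 0 < w x) →
  (∀ a, ContDiffOn ℝ 1 (Z a) {x | x ≠ 0 ∧ T x ≠ 0}) →
  (∀ x, x ≠ 0 → T x ≠ 0 → ∑ a, pd a (fun y => w y * Z a y) x = w x * κ x) →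
  ContinuousOn κ {x | x ≠ 0 ∧ T x ≠ 0} → (∀ x, x ≠ 0 → T x ≠ 0 → 0 < κ x) →
  (∀ x, x ≠ 0 → T x ≠ 0 → ∑ a, pd a (phi F) x * Z a x = 0) →
  (∀ x, 1 ≤ phi F x → phi F x ≤ 3 → T x ≠ 0 → |∑ a, Z a x * pd a T x| ≤ C * T x) →
  ∀ x, 1 < phi F x → phi F x < 3 → T x = 0

/-- END: conclusion from `N = 0`. -/
def TaskEnd : Prop := TaskBasic → TaskHom → ∀ F : E3 → ℝ, Hyp F →
  (∀ x, 1 < phi F x → phi F x < 3 → NN F x = 0) →
  ∃ A : Matrix (Fin 3) (Fin 3) ℝ, A.PosDef ∧ ∀ x : Fin 3 → ℝ, F x = Real.sqrt (x ⬝ᵥ A *ᵥ x)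

/-- TRANS: invariance of the scalar quantities under composition with an invertible matrix. -/
def TaskTrans : Prop := TaskBasic → TaskComp → TaskNat → TaskSm → ∀ (F : E3 → ℝ), Hyp F →
  ∀ P : Matrix (Fin 3) (Fin 3) ℝ, P.det ≠ 0 → ∀ y : E3, y ≠ 0 → NN F (P *ᵥ y) ≠ 0 →
  NN (fun z => F (P *ᵥ z)) y = NN F (P *ᵥ y) ∧
  ss (fun z => F (P *ᵥ z)) y = ss F (P *ᵥ y) ∧
  (∑ a, pd a (Vt F a) (P *ᵥ y) = ∑ a, pd a (Vt (fun z => F (P *ᵥ z)) a) y) ∧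
  (∑ a, tau F a (P *ᵥ y) * Vt F a (P *ᵥ y) =
    ∑ a, tau (fun z => F (P *ᵥ z)) a y * Vt (fun z => F (P *ᵥ z)) a y) ∧
  (∑ a, Vt F a (P *ᵥ y) * pd a (ss F) (P *ᵥ y) =
    ∑ a, Vt (fun z => F (P *ᵥ z)) a y * pd a (ss (fun z => F (P *ᵥ z))) y)

end Pool.Agent.H935R3.LW
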