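import Pool.Agent.H935R3.LW.Stmts

set_option autoImplicit false
open Matrix Set

namespace Pool.Agent.H935R3.LW.Bd

lemma F_zero {F : E3 → ℝ} (hF : Hyp F) : F 0 = 0 := by
  have := hF.hom 0 0 le_rfl
  simpa using this

lemma F_norm {F : E3 → ℝ} (hF : Hyp F) {x : E3} (hx : x ≠ 0) : F x = ‖x‖ * F (‖x‖⁻¹ • x) := by
  rw [← hF.hom ‖x‖ _ (norm_nonneg _), smul_smul, mul_inv_cancel₀ (norm_ne_zero_iff.2 hx), one_smul]

lemma sphere_of {x : E3} (hx : x ≠ 0) : ‖x‖⁻¹ • x ∈ Metric.sphere (0 : E3) 1 := by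
  rw [mem_sphere_zero_iff_norm, norm_smul, norm_inv, norm_norm,
    inv_mul_cancel₀ (norm_ne_zero_iff.2 hx)]

lemma sphere_ne {x : E3} (hx : x ∈ Metric.sphere (0 : E3) 1) : x ≠ 0 := by
  rintro rfl
  simp at hx

lemma F_bounds {F : E3 → ℝ} (hF : Hyp F) :
    ∃ c C : ℝ, 0 < c ∧ 0 < C ∧ ∀ x : E3, c * ‖x‖ ≤ F x ∧ F x ≤ C * ‖x‖ := by
  have hK : IsCompact (Metric.sphere (0 : E3) 1) := isCompact_sphere 0 1
  have hne : (Metric.sphere (0 : E3) 1).Nonempty := by
    have : (Pi.single 0 1 : E3) ≠ 0 := by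
      intro h
      have := congrFun h 0
      simp at this
    exact ⟨_, sphere_of this⟩
  have hcont : ContinuousOn F (Metric.sphere (0 : E3) 1) :=
    hF.smooth.continuousOn.mono fun x hx => sphere_ne hx
  obtain ⟨x0, hx0, hmin⟩ := hK.exists_isMinOn hne hcont
  obtain ⟨x1, hx1, hmax⟩ := hK.exists_isMaxOn hne hcont
  refine ⟨F x0, F x1, hF.pos x0 (sphere_ne hx0), hF.pos x1 (sphere_ne hx1), fun x => ?_⟩
  by_cases hx : x = 0
  · subst hx
    simp [F_zero hF]
  · rw [F_norm hF hx]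
    have h1 := hmin (sphere_of hx)
    have h2 := hmax (sphere_of hx)
    simp only [mem_ofPred_eq] at h1 h2
    constructor
    · rw [mul_comm]
      exact mul_le_mul_of_nonneg_left h1 (norm_nonneg _)
    · rw [mul_comm (F x1)]
      exact mul_le_mul_of_nonneg_left h2 (norm_nonneg _)

lemma F_nonneg {F : E3 → ℝ} (hF : Hyp F) (x : E3) : 0 ≤ F x := by
  obtain ⟨c, C, hc, hC, h⟩ := F_bounds hF
  have := (h x).1
  have h2 : 0 ≤ c * ‖x‖ := by positivity
  linarith

lemma shell_ne {F : E3 → ℝ} (hF : Hyp F) {x : E3} (h1 : 1 ≤ phi F x) : x ≠ 0 := by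
  rintro rfl
  unfold phi at h1
  rw [F_zero hF] at h1
  norm_num at h1

lemma shell_compact {F : E3 → ℝ} (hF : Hyp F) :
    IsCompact {x : E3 | 1 ≤ phi F x ∧ phi F x ≤ 3} := by
  obtain ⟨c, C, hc, hC, h⟩ := F_bounds hF
  set A : Set E3 := Metric.closedBall 0 (3 / c) \ Metric.ball 0 (1 / C) with hA'
  have hA : IsCompact A := (isCompact_closedBall 0 _).diff Metric.isOpen_ball
  have hcont : ContinuousOn (phi F) A := by
    have h0 : ContinuousOn F A := hF.smooth.continuousOn.mono (by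
      rintro x ⟨_, hx⟩ rfl
      apply hx
      simp [hC])
    unfold phi
    exact (h0.pow 2).div_const 2
  have hK : {x : E3 | 1 ≤ phi F x ∧ phi F x ≤ 3} = A ∩ phi F ⁻¹' Icc 1 3 := by
    ext x
    constructor
    · rintro ⟨h1, h3⟩
      refine ⟨⟨?_, ?_⟩, h1, h3⟩
      · rw [mem_closedBall_zero_iff, le_div_iff₀ hc]
        have h4 : F x ≤ 3 := by
          unfold phi at h3
          nlinarith [F_nonneg hF x]
        have := (h x).1
        linarith
      · rw [mem_ball_zero_iff, not_lt, div_le_iff₀ hC]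
        have h4 : 1 ≤ F x := by
          unfold phi at h1
          nlinarith [F_nonneg hF x]
        have := (h x).2
        linarith
    · rintro ⟨_, h1, h3⟩
      exact ⟨h1, h3⟩
  rw [hK]
  exact hA.of_isClosed_subset (hcont.preimage_isClosed_of_isClosed hA.isClosed isClosed_Icc)
    inter_subset_left

lemma quad_lower {K : Set E3} (hK : IsCompact K) (A : E3 → A2)
    (hA : ∀ i j, ContinuousOn (fun x => A x i j) K)
    (hpos : ∀ x ∈ K, ∀ v : E3, v ≠ 0 → 0 < ∑ a, ∑ b, A x a b * v a * v b) :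
    ∃ c : ℝ, 0 < c ∧ ∀ x ∈ K, ∀ v : E3, c * ∑ a, v a ^ 2 ≤ ∑ a, ∑ b, A x a b * v a * v b := by
  rcases K.eq_empty_or_nonempty with rfl | hne
  · exact ⟨1, one_pos, by simp⟩
  have hS : IsCompact (Metric.sphere (0 : E3) 1) := isCompact_sphere 0 1
  have hSne : (Metric.sphere (0 : E3) 1).Nonempty := by
    have : (Pi.single 0 1 : E3) ≠ 0 := by
      intro h
      have := congrFun h 0
      simp at this
    exact ⟨_, sphere_of this⟩
  have hcont : ContinuousOn (fun p : E3 × E3 => ∑ a, ∑ b, A p.1 a b * p.2 a * p.2 b)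
      (K ×ˢ Metric.sphere (0 : E3) 1) := by
    refine continuousOn_finsetSum _ fun a _ => continuousOn_finsetSum _ fun b _ => ?_
    have h1 : ContinuousOn (fun p : E3 × E3 => A p.1 a b) (K ×ˢ Metric.sphere (0 : E3) 1) :=
      (hA a b).comp continuousOn_fst fun p hp => hp.1
    exact (h1.mul (by fun_prop)).mul (by fun_prop)
  obtain ⟨p, hp, hmin⟩ := (hK.prod hS).exists_isMinOn (hne.prod hSne) hcont
  have hm := hpos p.1 hp.1 p.2 (sphere_ne hp.2)
  set m := ∑ a, ∑ b, A p.1 a b * p.2 a * p.2 b with hmdef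
  refine ⟨m / 3, by positivity, fun x hx v => ?_⟩
  by_cases hv : v = 0
  · subst hv
    simp
  · have h1 : m ≤ ∑ a, ∑ b, A x a b * (‖v‖⁻¹ • v) a * (‖v‖⁻¹ • v) b :=
      hmin (show (x, ‖v‖⁻¹ • v) ∈ K ×ˢ Metric.sphere (0 : E3) 1 from ⟨hx, sphere_of hv⟩)
    have hn : 0 < ‖v‖ := norm_pos_iff.2 hv
    have h2 : ∑ a, ∑ b, A x a b * v a * v b =
        ‖v‖ ^ 2 * ∑ a, ∑ b, A x a b * (‖v‖⁻¹ • v) a * (‖v‖⁻¹ • v) b := by
      simp only [Pi.smul_apply, smul_eq_mul, Finset.mul_sum]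
      refine Finset.sum_congr rfl fun a _ => Finset.sum_congr rfl fun b _ => ?_
      field_simp
    have h3 : ∑ a, v a ^ 2 ≤ 3 * ‖v‖ ^ 2 := by
      have : ∀ a ∈ Finset.univ, v a ^ 2 ≤ ‖v‖ ^ 2 := by
        intro a _
        have := norm_le_pi_norm v a
        rw [Real.norm_eq_abs] at this
        rw [← sq_abs (v a)]
        gcongr
      calc ∑ a, v a ^ 2 ≤ ∑ a : Fin 3, ‖v‖ ^ 2 := Finset.sum_le_sum this
        _ = 3 * ‖v‖ ^ 2 := by simp
    rw [h2]
    calc m / 3 * ∑ a, v a ^ 2 ≤ m / 3 * (3 * ‖v‖ ^ 2) := by gcongr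
      _ = ‖v‖ ^ 2 * m := by ring
      _ ≤ _ := by gcongr

lemma posdef_quad {M : Matrix (Fin 3) (Fin 3) ℝ} (hM : M.PosDef) (v : E3) (hv : v ≠ 0) :
    0 < ∑ a, ∑ b, M a b * v a * v b := by
  have := hM.dotProduct_mulVec_pos hv
  simp only [dotProduct, mulVec, star_trivial, Finset.mul_sum] at this
  refine this.trans_le (le_of_eq ?_)
  refine Finset.sum_congr rfl fun a _ => Finset.sum_congr rfl fun b _ => ?_
  ring

lemma pd_mul {f g : E3 → ℝ} {x : E3} (k : Fin 3) (hf : DifferentiableAt ℝ f x)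
    (hg : DifferentiableAt ℝ g x) :
    pd k (fun y => f y * g y) x = f x * pd k g x + pd k f x * g x := by
  unfold pd
  rw [fderiv_fun_mul hf hg]
  simp
  ring

lemma pd_sum {f : Fin 3 → E3 → ℝ} {x : E3} (k : Fin 3) (hf : ∀ a, DifferentiableAt ℝ (f a) x) :
    pd k (fun y => ∑ a, f a y) x = ∑ a, pd k (f a) x := by
  unfold pd
  rw [fderiv_fun_sum (fun a _ => hf a)]
  simp

lemma isOpenU : IsOpen {x : E3 | x ≠ 0} := isOpen_compl_singleton

lemma pd_cont {f : E3 → ℝ} (hf : ContDiffOn ℝ ((⊤ : ℕ∞) : WithTop ℕ∞) f {x | x ≠ 0}) (k : Fin 3) :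
    ContinuousOn (pd k f) {x | x ≠ 0} := by
  have h1 := hf.continuousOn_fderiv_of_isOpen isOpenU (by simp)
  exact h1.clm_apply continuousOn_const

lemma diffAt {f : E3 → ℝ} (hf : ContDiffOn ℝ ((⊤ : ℕ∞) : WithTop ℕ∞) f {x | x ≠ 0}) {x : E3}
    (hx : x ≠ 0) : DifferentiableAt ℝ f x :=
  (hf.contDiffAt (isOpenU.mem_nhds hx)).differentiableAt (by simp)

theorem bd_ok : TaskBd := by
  intro hB F hF
  obtain ⟨-, -, hG, hcc, -, -, hhh, -⟩ := hB F hF
  set K : Set E3 := {x : E3 | 1 ≤ phi F x ∧ phi F x ≤ 3} with hKdef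
  have hK : IsCompact K := shell_compact hF
  have hKU : K ⊆ {x : E3 | x ≠ 0} := fun x hx => shell_ne hF hx.1
  obtain ⟨c1, hc1, h1⟩ := quad_lower hK (fun x => G F x)
    (fun i j => (hG i j).continuousOn.mono hKU)
    (fun x hx v hv => posdef_quad (hF.posdef x (hKU hx)) v hv)
  obtain ⟨c2, hc2, h2⟩ := quad_lower hK (fun x => hh F x)
    (fun i j => (hhh i j).continuousOn.mono hKU)
    (fun x hx v hv => posdef_quad (hF.posdef x (hKU hx)).inv v hv)
  have htau : ∀ a, ContDiffOn ℝ ((⊤ : ℕ∞) : WithTop ℕ∞) (tau F a) {x | x ≠ 0} := by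
    intro a
    unfold tau tauA
    exact ContDiffOn.sum fun i _ => ContDiffOn.sum fun j _ => (hhh i j).mul (hcc i j a)
  set ht : Fin 3 → E3 → ℝ := fun a x => ∑ b, hh F x a b * tau F b x with htdef
  have hht : ∀ a, ContDiffOn ℝ ((⊤ : ℕ∞) : WithTop ℕ∞) (ht a) {x | x ≠ 0} := by
    intro a
    exact ContDiffOn.sum fun b _ => (hhh a b).mul (htau b)
  have hNN : ∀ x, NN F x = ∑ a, tau F a x * ht a x := fun x => rfl
  have hNN2 : ∀ x, NN F x = ∑ a, ∑ b, hh F x a b * tau F a x * tau F b x := by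
    intro x
    rw [hNN]
    refine Finset.sum_congr rfl fun a _ => ?_
    rw [htdef, Finset.mul_sum]
    refine Finset.sum_congr rfl fun b _ => ?_
    ring
  set m : Fin 3 → Fin 3 → E3 → ℝ := fun k a x =>
    pd k (ht a) x + ∑ b, pd k (tau F b) x * hh F x b a with hmdef
  have hmc : ∀ k a, ContinuousOn (m k a) {x | x ≠ 0} := by
    intro k a
    refine (pd_cont (hht a) k).add ?_
    exact continuousOn_finsetSum _ fun b _ => (pd_cont (htau b) k).mul (hhh b a).continuousOn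
  have hpd : ∀ x : E3, x ≠ 0 → ∀ k, pd k (NN F) x = ∑ a, tau F a x * m k a x := by
    intro x hx k
    have e1 : pd k (NN F) x = ∑ a, (tau F a x * pd k (ht a) x + pd k (tau F a) x * ht a x) := by
      have : NN F = fun x => ∑ a, tau F a x * ht a x := funext hNN
      rw [this, pd_sum (f := fun a x => tau F a x * ht a x) k
        (fun a => (diffAt (htau a) hx).fun_mul (diffAt (hht a) hx))]
      refine Finset.sum_congr rfl fun a _ => ?_
      exact pd_mul k (diffAt (htau a) hx) (diffAt (hht a) hx)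
    rw [e1]
    simp only [hmdef, htdef, Fin.sum_univ_three]
    ring
  have hSc : ContinuousOn (fun x => ∑ k, ∑ a, |m k a x|) K := by
    refine continuousOn_finsetSum _ fun k _ => continuousOn_finsetSum _ fun a _ => ?_
    exact ((hmc k a).mono hKU).abs
  obtain ⟨M, hM⟩ := hK.exists_bound_of_continuousOn hSc
  refine ⟨M * (3 / 2) * (1 / c1 + 1 / c2), fun x hx1 hx3 Z hZ => ?_⟩
  have hx : x ∈ K := ⟨hx1, hx3⟩
  have hx0 := hKU hx
  have hMx : ∀ k a, |m k a x| ≤ M := by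
    intro k a
    have h3 := hM x hx
    rw [Real.norm_eq_abs] at h3
    have h4 : |m k a x| ≤ ∑ k, ∑ a, |m k a x| := by
      have h5 : |m k a x| ≤ ∑ a, |m k a x| :=
        Finset.single_le_sum (f := fun a => |m k a x|) (fun _ _ => abs_nonneg _)
          (Finset.mem_univ a)
      have h6 : ∑ a, |m k a x| ≤ ∑ k, ∑ a, |m k a x| :=
        Finset.single_le_sum (f := fun k => ∑ a, |m k a x|)
          (fun _ _ => Finset.sum_nonneg fun _ _ => abs_nonneg _) (Finset.mem_univ k)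
      exact h5.trans h6
    exact h4.trans ((le_abs_self _).trans h3)
  have hM0 : 0 ≤ M := (abs_nonneg _).trans (hMx 0 0)
  have hZ2 : ∑ a, Z a ^ 2 ≤ NN F x / c1 := by
    rw [le_div_iff₀ hc1, mul_comm]
    exact (h1 x hx Z).trans hZ
  have hT2 : ∑ a, tau F a x ^ 2 ≤ NN F x / c2 := by
    rw [le_div_iff₀ hc2, mul_comm, hNN2]
    exact h2 x hx (fun a => tau F a x)
  have e2 : ∑ k, Z k * pd k (NN F) x = ∑ k, ∑ a, Z k * (tau F a x * m k a x) := by
    refine Finset.sum_congr rfl fun k _ => ?_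
    rw [hpd x hx0 k, Finset.mul_sum]
  rw [e2]
  calc |∑ k, ∑ a, Z k * (tau F a x * m k a x)|
      ≤ ∑ k, ∑ a, |Z k * (tau F a x * m k a x)| :=
        (Finset.abs_sum_le_sum_abs _ _).trans
          (Finset.sum_le_sum fun k _ => Finset.abs_sum_le_sum_abs _ _)
    _ ≤ ∑ k, ∑ a, M * ((Z k ^ 2 + tau F a x ^ 2) / 2) := by
        refine Finset.sum_le_sum fun k _ => Finset.sum_le_sum fun a _ => ?_
        rw [abs_mul, abs_mul]
        have h3 : |Z k| * |tau F a x| ≤ (Z k ^ 2 + tau F a x ^ 2) / 2 := by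
          rw [← sq_abs (Z k), ← sq_abs (tau F a x)]
          nlinarith [sq_nonneg (|Z k| - |tau F a x|)]
        calc |Z k| * (|tau F a x| * |m k a x|) = (|Z k| * |tau F a x|) * |m k a x| := by ring
          _ ≤ ((Z k ^ 2 + tau F a x ^ 2) / 2) * M :=
              mul_le_mul h3 (hMx k a) (abs_nonneg _) (by positivity)
          _ = _ := by ring
    _ = M * (3 / 2) * (∑ a, Z a ^ 2 + ∑ a, tau F a x ^ 2) := by
        simp only [Fin.sum_univ_three]
        ring
    _ ≤ M * (3 / 2) * (NN F x / c1 + NN F x / c2) := by gcongr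
    _ = _ := by ring

end Pool.Agent.H935R3.LW.Bd
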