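import Pool.Agent.H935R3.LW.Stmts
import Pool.Agent.H980R3.LW.Vals

set_option autoImplicit false

namespace Pool.Agent.H935R3.LW

open AlgT

theorem taskAlg : TaskAlg := by
  intro c d e f l1 l2 a p q r b E1 E2 E3v E4 hf hc1 hc2 hd1 hd2 hd3 he1 he2 he3 he4 hc3 hd4 he5
    h001 h011 hl1 hl2 ha hp hq hr hb hE1 hE2 hE3 hE4 hN hR0 hR0' hR1 hR2 hR3
  obtain ⟨E0, hE0⟩ : ∃ E0, E0 = e 0 0 0 0 0 := ⟨_, rfl⟩
  obtain ⟨E5, hE5⟩ : ∃ E5, E5 = e 1 1 1 1 1 := ⟨_, rfl⟩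
  have hc : CV c l1 l2 := cv_of c l1 l2 hc1 hc2 hc3 h001 h011 hl1 hl2
  have hd : DV d f l1 l2 a p q r b := dv_of c d f l1 l2 a p q r b hc hd1 hd2 hd3 hd4 ha hp hq hr hb
  have he : EV e f l1 l2 a p q r b E0 E1 E2 E3v E4 E5 :=
    ev_of c d e f l1 l2 a p q r b E0 E1 E2 E3v E4 E5 hd he1 he2 he3 he4 he5 hE0 hE1 hE2 hE3 hE4 hE5
  clear hc1 hc2 hd1 hd2 hd3 he1 he2 he3 he4 hc3 hd4 he5 h001 h011 hl1 hl2 ha hp hq hr hb hE1 hE2
    hE3 hE4 hE0 hE5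
  obtain ⟨N, hNN⟩ : ∃ N, N = l1 ^ 2 + l2 ^ 2 := ⟨_, rfl⟩
  have hN' : N ≠ 0 := by rw [hNN]; exact hN
  obtain ⟨β, hβ⟩ : ∃ β, β = -(p + r) / N := ⟨_, rfl⟩
  have hf0 : f ≠ 0 := hf.ne'
  have hpr : p + r = -(N * β) := by rw [hβ]; field_simp
  have hpβ : p = -(l1 ^ 2 * β) := by
    have : p * N = -(l1 ^ 2 * β) * N := by
      have : p * N = l1 ^ 2 * (p + r) := by rw [hNN]; linear_combination l2 * hR0 - l1 * hR0'
      rw [this, hpr]; ring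
    exact mul_right_cancel₀ hN' this
  have hqβ : q = l1 * l2 * β := by
    have : q * N = l1 * l2 * β * N := by
      have : q * N = -(l1 * l2) * (p + r) := by rw [hNN]; linear_combination l1 * hR0 + l2 * hR0'
      rw [this, hpr]; ring
    exact mul_right_cancel₀ hN' this
  have hrβ : r = -(l2 ^ 2 * β) := by
    have h : p + r = -(l1 ^ 2 * β) - l2 ^ 2 * β := by rw [hpr, hNN]; ring
    linear_combination h - hpβ
  clear hβ hpr
  have hfn : (fun i j : Fin 3 => if i = j then (1:ℝ) else 0) = dl := rfl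
  have e0 : ∀ k : Fin 3, (fun i j => -c i j k) = hK c k := fun _ => rfl
  have e1 : ∀ k : Fin 3, (fun i j m => d i j m k) = cK d k := fun _ => rfl
  have e2 : ∀ k : Fin 3, (fun i j m n => e i j m n k) = dK e k := fun _ => rfl
  have x0 : (Pi.single 2 f : Fin 3 → ℝ) 0 = 0 := by simp
  have x1 : (Pi.single 2 f : Fin 3 → ℝ) 1 = 0 := by simp
  have x2 : (Pi.single 2 f : Fin 3 → ℝ) 2 = f := by simp
  have V0 : VtA dl c d (Pi.single 2 f) (f ^ 2) 0 = -(β * l2) := by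
    rw [VtA, v_dl, nval c l1 l2 hc, u0 c d f l1 l2 a p q r b hc hd, x0, ← hNN, hpβ, hrβ]
    field_simp
    rw [hNN]; ring
  have V1 : VtA dl c d (Pi.single 2 f) (f ^ 2) 1 = -(β * l1) := by
    rw [VtA, v_dl, nval c l1 l2 hc, u1 c d f l1 l2 a p q r b hc hd, x1, ← hNN, hpβ, hrβ]
    field_simp
    rw [hNN]; ring
  have V2 : VtA dl c d (Pi.single 2 f) (f ^ 2) 2 = 0 := by
    rw [VtA, v_dl, nval c l1 l2 hc, u2 c d f l1 l2 a p q r b hc hd, x2, ← hNN]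
    field_simp
    rw [hNN]; ring
  have S0 : sA dl c d (f ^ 2) = β ^ 2 := by
    rw [sA, quval c d f l1 l2 a p q r b hc hd, nval c l1 l2 hc, ← hNN, hpβ, hrβ]
    field_simp
    rw [hNN]; ring
  have y0 : (Pi.single 0 1 : Fin 3 → ℝ) 0 = 1 := by simp
  have y1 : (Pi.single 1 1 : Fin 3 → ℝ) 1 = 1 := by simp
  have y2 : (Pi.single 2 1 : Fin 3 → ℝ) 2 = 1 := by simp
  have z0 : (if (0 : Fin 3) = 2 then 2 * f else 0) = 0 := by simp
  have z1 : (if (1 : Fin 3) = 2 then 2 * f else 0) = 0 := by simp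
  have z2 : (if (2 : Fin 3) = 2 then 2 * f else 0) = 2 * f := by simp
  simp only [hfn, e0, e1, e2]
  constructor
  · simp only [Fin.sum_univ_three, V0, V1, V2, tau0 c l1 l2 hc, tau1 c l1 l2 hc]
    simp only [VtD, vD0 c d e f l1 l2 a p q r b E0 E1 E2 E3v E4 E5 hc hd he,
      vD1 c d e f l1 l2 a p q r b E0 E1 E2 E3v E4 E5 hc hd he,
      vD2 c d e f l1 l2 a p q r b E0 E1 E2 E3v E4 E5 hc hd he, nval c l1 l2 hc, v_dl,
      u0 c d f l1 l2 a p q r b hc hd, u1 c d f l1 l2 a p q r b hc hd,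
      u2 c d f l1 l2 a p q r b hc hd, nD0 c d f l1 l2 a p q r b hc hd,
      nD1 c d f l1 l2 a p q r b hc hd, nD2 c d f l1 l2 a p q r b hc hd, x0, x1, x2, y0, y1, y2,
      z0, z1, if_true]
    clear V0 V1 V2 S0 hc hd he e0 e1 e2 hfn
    subst hpβ hqβ hrβ
    field_simp
    linear_combination 2 * f ^ 4 * (l1 ^ 2 + l2 ^ 2) * (hR1 + hR3)
  · simp only [Fin.sum_univ_three, V0, V1, V2, S0]
    simp only [sD, quD0 c d e f l1 l2 a p q r b E0 E1 E2 E3v E4 E5 hc hd he,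
      quD1 c d e f l1 l2 a p q r b E0 E1 E2 E3v E4 E5 hc hd he, nval c l1 l2 hc,
      quval c d f l1 l2 a p q r b hc hd, nD0 c d f l1 l2 a p q r b hc hd,
      nD1 c d f l1 l2 a p q r b hc hd, z0, z1, if_true]
    clear V0 V1 V2 S0 hc hd he e0 e1 e2 hfn
    subst hpβ hqβ hrβ
    field_simp
    linear_combination 2 * β ^ 2 * f ^ 4 * (l1 ^ 2 + l2 ^ 2) ^ 3 * (hR1 + hR3)

end Pool.Agent.H935R3.LW
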