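import Pool.Agent.H935R3.LW.Stmts

/-! Task An of the Laugwitz project (helper610): divergence theorem with cutoffs. -/

set_option autoImplicit false

open MeasureTheory Filter Topology Set

namespace Pool.Agent.H935R3.LW

namespace AnAux

variable {F : E3 → ℝ}

theorem F_zero (hF : Hyp F) : F 0 = 0 := by
  have := hF.hom 0 0 le_rfl
  simpa using this

theorem F_nonneg (hF : Hyp F) (x : E3) : 0 ≤ F x := by
  by_cases h : x = 0
  · rw [h, F_zero hF]
  · exact (hF.pos x h).le

theorem open_ne : IsOpen {x : E3 | x ≠ 0} := isOpen_ne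

theorem F_contAt (hF : Hyp F) {x : E3} (hx : x ≠ 0) : ContinuousAt F x :=
  (hF.smooth.contDiffAt (open_ne.mem_nhds hx)).continuousAt

theorem bounds (hF : Hyp F) : ∃ c C : ℝ, 0 < c ∧ ∀ x : E3, c * ‖x‖ ≤ F x ∧ F x ≤ C * ‖x‖ := by
  have hne : ∀ x ∈ Metric.sphere (0 : E3) 1, x ≠ 0 := by
    intro x hx h
    rw [h, mem_sphere_zero_iff_norm, norm_zero] at hx
    norm_num at hx
  have hc : ContinuousOn F (Metric.sphere (0 : E3) 1) := fun x hx =>
    (F_contAt hF (hne x hx)).continuousWithinAt
  have hS : (Metric.sphere (0 : E3) 1).Nonempty := NormedSpace.sphere_nonempty.2 zero_le_one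
  obtain ⟨y, hy, hmin⟩ := (isCompact_sphere (0 : E3) 1).exists_isMinOn hS hc
  obtain ⟨z, hz, hmax⟩ := (isCompact_sphere (0 : E3) 1).exists_isMaxOn hS hc
  refine ⟨F y, F z, hF.pos y (hne y hy), fun x => ?_⟩
  by_cases hx : x = 0
  · rw [hx, F_zero hF]
    simp
  · have hn : 0 < ‖x‖ := norm_pos_iff.2 hx
    have hu : (‖x‖⁻¹ • x) ∈ Metric.sphere (0 : E3) 1 := by
      rw [mem_sphere_zero_iff_norm, norm_smul, norm_inv, norm_norm, inv_mul_cancel₀ hn.ne']
    have hx' : F x = ‖x‖ * F (‖x‖⁻¹ • x) := by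
      rw [← hF.hom ‖x‖ (‖x‖⁻¹ • x) hn.le, smul_smul, mul_inv_cancel₀ hn.ne', one_smul]
    have h1 : F y ≤ F (‖x‖⁻¹ • x) := hmin hu
    have h2 : F (‖x‖⁻¹ • x) ≤ F z := hmax hu
    rw [hx']
    constructor
    · nlinarith
    · nlinarith

theorem F_cont (hF : Hyp F) : Continuous F := by
  obtain ⟨c, C, hc, hb⟩ := bounds hF
  rw [continuous_iff_continuousAt]
  intro x
  by_cases hx : x = 0
  · subst hx
    unfold ContinuousAt
    rw [F_zero hF]
    have h1 : Tendsto (fun x : E3 => C * ‖x‖) (𝓝 0) (𝓝 0) := by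
      have : Continuous fun x : E3 => C * ‖x‖ := continuous_const.mul continuous_norm
      simpa using this.tendsto 0
    exact squeeze_zero (F_nonneg hF) (fun x => (hb x).2) h1
  · exact F_contAt hF hx

theorem phi_cont (hF : Hyp F) : Continuous (phi F) := by
  unfold phi
  exact ((F_cont hF).pow 2).div_const 2

theorem phi_zero (hF : Hyp F) : phi F 0 = 0 := by
  unfold phi
  rw [F_zero hF]
  norm_num

theorem K_compact (hF : Hyp F) : IsCompact {x : E3 | 1 ≤ phi F x ∧ phi F x ≤ 3} := by
  obtain ⟨c, C, hc, hb⟩ := bounds hF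
  apply Metric.isCompact_of_isClosed_isBounded
  · exact (isClosed_le continuous_const (phi_cont hF)).inter
      (isClosed_le (phi_cont hF) continuous_const)
  · refine (Metric.isBounded_iff_subset_closedBall (0 : E3)).2 ⟨3 / c, fun x hx => ?_⟩
    rw [mem_closedBall_zero_iff, le_div_iff₀ hc]
    have h1 : F x ^ 2 / 2 ≤ 3 := hx.2
    have h2 := (hb x).1
    nlinarith [F_nonneg hF x]

theorem dchi_zero {t : ℝ} (h : t < 0 ∨ 1 < t) : deriv Real.smoothTransition t = 0 := by
  rcases h with h | h
  · have : Real.smoothTransition =ᶠ[𝓝 t] fun _ => (0 : ℝ) := by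
      filter_upwards [eventually_lt_nhds h] with y hy
      exact Real.smoothTransition.zero_of_nonpos hy.le
    rw [this.deriv_eq]
    simp
  · have : Real.smoothTransition =ᶠ[𝓝 t] fun _ => (1 : ℝ) := by
      filter_upwards [eventually_gt_nhds h] with y hy
      exact Real.smoothTransition.one_of_one_le hy.le
    rw [this.deriv_eq]
    simp

theorem dchi_bound : ∃ M : ℝ, 0 ≤ M ∧ ∀ t, |deriv Real.smoothTransition t| ≤ M := by
  have hc : Continuous (deriv Real.smoothTransition) :=
    (Real.smoothTransition.contDiff (n := 1)).continuous_deriv le_rfl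
  obtain ⟨M, hM⟩ := (isCompact_Icc (a := (0 : ℝ)) (b := 1)).exists_bound_of_continuousOn
    hc.continuousOn
  have hM0 : 0 ≤ M := (norm_nonneg _).trans (hM 0 ⟨le_rfl, zero_le_one⟩)
  refine ⟨M, hM0, fun t => ?_⟩
  by_cases h0 : t < 0
  · rw [dchi_zero (Or.inl h0), abs_zero]
    exact hM0
  · by_cases h1 : 1 < t
    · rw [dchi_zero (Or.inr h1), abs_zero]
      exact hM0
    · exact hM t ⟨not_lt.1 h0, not_lt.1 h1⟩

/-- the cutoff on `[1, 3]` -/
noncomputable def rho (r : ℝ) : ℝ := Real.smoothTransition (r - 1) * Real.smoothTransition (3 - r)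

theorem rho_contDiff : ContDiff ℝ 1 rho := by
  have h1 : ContDiff ℝ 1 fun r : ℝ => Real.smoothTransition (r - 1) :=
    (Real.smoothTransition.contDiff (n := 1)).comp (contDiff_id.sub contDiff_const)
  have h2 : ContDiff ℝ 1 fun r : ℝ => Real.smoothTransition (3 - r) :=
    (Real.smoothTransition.contDiff (n := 1)).comp (contDiff_const.sub contDiff_id)
  exact h1.mul h2

theorem rho_nonneg (r : ℝ) : 0 ≤ rho r :=
  mul_nonneg (Real.smoothTransition.nonneg _) (Real.smoothTransition.nonneg _)

theorem rho_le_one (r : ℝ) : rho r ≤ 1 :=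
  mul_le_one₀ (Real.smoothTransition.le_one _) (Real.smoothTransition.nonneg _)
    (Real.smoothTransition.le_one _)

theorem rho_zero {r : ℝ} (h : r ≤ 1 ∨ 3 ≤ r) : rho r = 0 := by
  unfold rho
  rcases h with h | h
  · rw [Real.smoothTransition.zero_of_nonpos (by linarith), zero_mul]
  · rw [Real.smoothTransition.zero_of_nonpos (x := 3 - r) (by linarith), mul_zero]

theorem rho_pos {r : ℝ} (h1 : 1 < r) (h3 : r < 3) : 0 < rho r :=
  mul_pos (Real.smoothTransition.pos_of_pos (by linarith))
    (Real.smoothTransition.pos_of_pos (by linarith))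

/-- the cutoff function -/
noncomputable def cut (F T : E3 → ℝ) (n : ℕ) (x : E3) : ℝ :=
  Real.smoothTransition (((n : ℝ) + 1) * T x - 1) * rho (phi F x)

theorem cut_nonneg (F T : E3 → ℝ) (n : ℕ) (x : E3) : 0 ≤ cut F T n x :=
  mul_nonneg (Real.smoothTransition.nonneg _) (rho_nonneg _)

theorem cut_off (hF : Hyp F) {T : E3 → ℝ} (hTc : ContDiffOn ℝ 1 T {x | x ≠ 0}) (n : ℕ) {x : E3}
    (hx : ¬ (x ≠ 0 ∧ T x ≠ 0)) : cut F T n =ᶠ[𝓝 x] fun _ => 0 := by
  by_cases h0 : x = 0
  · subst h0
    have h1 : phi F 0 < 1 := by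
      rw [phi_zero hF]
      exact one_pos
    filter_upwards [(phi_cont hF).continuousAt.eventually_lt_const h1] with y hy
    unfold cut
    rw [rho_zero (Or.inl hy.le), mul_zero]
  · have hT : T x = 0 := by
      by_contra h
      exact hx ⟨h0, h⟩
    have hc : ContinuousAt T x := (hTc.contDiffAt (open_ne.mem_nhds h0)).continuousAt
    have hc' : ContinuousAt (fun y => ((n : ℝ) + 1) * T y - 1) x :=
      (continuousAt_const.mul hc).sub continuousAt_const
    have h1 : ((n : ℝ) + 1) * T x - 1 < 0 := by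
      rw [hT]
      norm_num
    filter_upwards [hc'.eventually_lt_const h1] with y hy
    unfold cut
    rw [Real.smoothTransition.zero_of_nonpos hy.le, zero_mul]

theorem cut_contDiffAt (hB : TaskBasic) (hF : Hyp F) {T : E3 → ℝ}
    (hTc : ContDiffOn ℝ 1 T {x | x ≠ 0}) (n : ℕ) {x : E3} (hx : x ≠ 0) :
    ContDiffAt ℝ 1 (cut F T n) x := by
  have hT : ContDiffAt ℝ 1 T x := hTc.contDiffAt (open_ne.mem_nhds hx)
  have hφ : ContDiffAt ℝ 1 (phi F) x :=
    (((hB F hF).1).contDiffAt (open_ne.mem_nhds hx)).of_le (by exact_mod_cast le_top)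
  have h1 : ContDiffAt ℝ 1 (fun y => Real.smoothTransition (((n : ℝ) + 1) * T y - 1)) x :=
    (Real.smoothTransition.contDiff (n := 1)).contDiffAt.comp x
      ((contDiffAt_const.mul hT).sub contDiffAt_const)
  have h2 : ContDiffAt ℝ 1 (fun y => rho (phi F y)) x := rho_contDiff.contDiffAt.comp x hφ
  exact h1.mul h2

theorem cut_ne_zero {T : E3 → ℝ} {n : ℕ} {x : E3} (h : cut F T n x ≠ 0) :
    1 ≤ phi F x ∧ phi F x ≤ 3 := by
  by_contra hc
  apply h
  unfold cut
  rw [not_and_or, not_le, not_le] at hc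
  rw [rho_zero (by rcases hc with h | h <;> [left; right] <;> linarith), mul_zero]

/-- derivative of the cutoff function -/
theorem cut_pd (hB : TaskBasic) (hF : Hyp F) {T : E3 → ℝ}
    (hTc : ContDiffOn ℝ 1 T {x | x ≠ 0}) (n : ℕ) {x : E3} (hx : x ≠ 0) (a : Fin 3) :
    pd a (cut F T n) x =
      Real.smoothTransition (((n : ℝ) + 1) * T x - 1) * (deriv rho (phi F x) * pd a (phi F) x) +
      rho (phi F x) * (deriv Real.smoothTransition (((n : ℝ) + 1) * T x - 1) *
        (((n : ℝ) + 1) * pd a T x)) := by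
  have hT : DifferentiableAt ℝ T x :=
    (hTc.contDiffAt (open_ne.mem_nhds hx)).differentiableAt one_ne_zero
  have hφ : DifferentiableAt ℝ (phi F) x :=
    ((((hB F hF).1).contDiffAt (open_ne.mem_nhds hx)).of_le
      (by exact_mod_cast le_top : (1 : WithTop ℕ∞) ≤ _)).differentiableAt one_ne_zero
  have hχ : HasDerivAt Real.smoothTransition
      (deriv Real.smoothTransition (((n : ℝ) + 1) * T x - 1)) (((n : ℝ) + 1) * T x - 1) :=
    (((Real.smoothTransition.contDiff (n := 1)).differentiable one_ne_zero) _).hasDerivAt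
  have hρ : HasDerivAt rho (deriv rho (phi F x)) (phi F x) :=
    ((rho_contDiff.differentiable one_ne_zero) _).hasDerivAt
  have h1 : HasFDerivAt (fun y => ((n : ℝ) + 1) * T y - 1) (((n : ℝ) + 1) • fderiv ℝ T x) x :=
    (hT.hasFDerivAt.const_mul _).sub_const _
  have h2 := hχ.comp_hasFDerivAt x h1
  have h3 := hρ.comp_hasFDerivAt x hφ.hasFDerivAt
  have h4 : HasFDerivAt (cut F T n) _ x := h2.mul h3
  unfold pd
  rw [h4.fderiv]
  simp only [ContinuousLinearMap.add_apply, ContinuousLinearMap.smul_apply, smul_eq_mul,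
    Function.comp_apply]

end AnAux

open AnAux in
theorem taskAn : TaskAn := by
  classical
  intro hB F hF T w κ Z C hTc hT0 hwc hw0 hZc hdiv hκc hκ0 htan hbd
  by_contra hcon
  push Not at hcon
  obtain ⟨x0, hx1, hx3, hTx0⟩ := hcon
  have hx0 : x0 ≠ 0 := by
    rintro rfl
    rw [phi_zero hF] at hx1
    linarith
  have hTpos : 0 < T x0 := lt_of_le_of_ne (hT0 x0 hx0) (Ne.symm hTx0)
  have hU : IsOpen {x : E3 | x ≠ 0 ∧ T x ≠ 0} := by
    rw [isOpen_iff_mem_nhds]
    intro x hx
    have hc : ContinuousAt T x := (hTc.contDiffAt (open_ne.mem_nhds hx.1)).continuousAt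
    filter_upwards [open_ne.mem_nhds hx.1, hc.eventually_ne hx.2] with y h1 h2
    exact ⟨h1, h2⟩
  have hK := K_compact hF
  set K : Set E3 := {x : E3 | 1 ≤ phi F x ∧ phi F x ≤ 3} with hKdef
  have hK0 : ∀ x ∈ K, x ≠ 0 := by
    rintro x hx rfl
    have := hx.1
    rw [phi_zero hF] at this
    linarith
  -- the vector field
  set Y : ℕ → Fin 3 → E3 → ℝ := fun n a y => (w y * Z a y) * cut F T n y with hY
  have hYoff : ∀ n a x, ¬ (x ≠ 0 ∧ T x ≠ 0) → Y n a =ᶠ[𝓝 x] fun _ => 0 := by
    intro n a x hx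
    filter_upwards [cut_off hF hTc n hx] with y hy
    simp only [hY]
    rw [hy, mul_zero]
  have hYc : ∀ n a, ContDiff ℝ 1 (Y n a) := by
    intro n a
    rw [contDiff_iff_contDiffAt]
    intro x
    by_cases hx : x ≠ 0 ∧ T x ≠ 0
    · have h1 : ContDiffAt ℝ 1 w x := hwc.contDiffAt (open_ne.mem_nhds hx.1)
      have h2 : ContDiffAt ℝ 1 (Z a) x := (hZc a).contDiffAt (hU.mem_nhds hx)
      exact (h1.mul h2).mul (cut_contDiffAt hB hF hTc n hx.1)
    · exact contDiffAt_const.congr_of_eventuallyEq (hYoff n a x hx)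
  have hYs : ∀ n a, HasCompactSupport (Y n a) := by
    intro n a
    refine HasCompactSupport.intro hK fun x hx => ?_
    by_contra h
    exact hx (cut_ne_zero (right_ne_zero_of_mul h))
  have hint0 : ∀ n a, ∫ x, pd a (Y n a) x = 0 := by
    intro n a
    have hcont : Continuous fun x => fderiv ℝ (Y n a) x (Pi.single a 1) :=
      ((hYc n a).continuous_fderiv one_ne_zero).clm_apply continuous_const
    have hsupp : HasCompactSupport fun x => fderiv ℝ (Y n a) x (Pi.single a 1) :=
      (hYs n a).fderiv_apply ℝ _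
    have h := integral_mul_fderiv_eq_neg_fderiv_mul_of_integrable (μ := (volume : Measure E3))
      (f := fun _ : E3 => (1 : ℝ)) (g := Y n a) (v := Pi.single a 1) (by simp)
      (by simpa using hcont.integrable_of_hasCompactSupport hsupp)
      (by simpa using (hYc n a).continuous.integrable_of_hasCompactSupport (hYs n a))
      (fun x _ => differentiableAt_const _)
      (fun x _ => (hYc n a).differentiable one_ne_zero x)
    simpa [pd] using h
  -- the first part
  set f1 : ℕ → E3 → ℝ := fun n x => w x * κ x * cut F T n x with hf1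
  have hf1off : ∀ n x, ¬ (x ≠ 0 ∧ T x ≠ 0) → f1 n =ᶠ[𝓝 x] fun _ => 0 := by
    intro n x hx
    filter_upwards [cut_off hF hTc n hx] with y hy
    simp only [hf1]
    rw [hy, mul_zero]
  have hf1c : ∀ n, Continuous (f1 n) := by
    intro n
    rw [continuous_iff_continuousAt]
    intro x
    by_cases hx : x ≠ 0 ∧ T x ≠ 0
    · have h1 : ContinuousAt w x := (hwc.contDiffAt (open_ne.mem_nhds hx.1)).continuousAt
      have h2 : ContinuousAt κ x := hκc.continuousAt (hU.mem_nhds hx)
      exact (h1.mul h2).mul (cut_contDiffAt hB hF hTc n hx.1).continuousAt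
    · exact continuousAt_const.congr (hf1off n x hx).symm
  have hf1s : ∀ n, HasCompactSupport (f1 n) := by
    intro n
    refine HasCompactSupport.intro hK fun x hx => ?_
    by_contra h
    exact hx (cut_ne_zero (right_ne_zero_of_mul h))
  have hcut0 : ∀ n x, ¬ (x ≠ 0 ∧ T x ≠ 0) → cut F T n x = 0 := fun n x hx =>
    (cut_off hF hTc n hx).self_of_nhds
  have hf1nn : ∀ n x, 0 ≤ f1 n x := by
    intro n x
    by_cases hx : x ≠ 0 ∧ T x ≠ 0
    · exact mul_nonneg (mul_pos (hw0 x hx.1) (hκ0 x hx.1 hx.2)).le (cut_nonneg F T n x)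
    · simp only [hf1]
      rw [hcut0 n x hx, mul_zero]
  have hf1mono : ∀ N n, N ≤ n → ∀ x, f1 N x ≤ f1 n x := by
    intro N n hNn x
    by_cases hx : x ≠ 0 ∧ T x ≠ 0
    · refine mul_le_mul_of_nonneg_left ?_ (mul_pos (hw0 x hx.1) (hκ0 x hx.1 hx.2)).le
      refine mul_le_mul_of_nonneg_right (Real.smoothTransition.monotone ?_) (rho_nonneg _)
      have h1 := hT0 x hx.1
      have h2 : (N : ℝ) ≤ n := by exact_mod_cast hNn
      nlinarith
    · simp only [hf1]
      rw [hcut0 N x hx, hcut0 n x hx]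
  obtain ⟨N, hN⟩ : ∃ N : ℕ, 1 / T x0 < (N : ℝ) + 1 := by
    obtain ⟨N, hN⟩ := exists_nat_gt (1 / T x0)
    exact ⟨N, by linarith⟩
  have hNpos : f1 N x0 ≠ 0 := by
    have h1 : 0 < ((N : ℝ) + 1) * T x0 - 1 := by
      rw [div_lt_iff₀ hTpos] at hN
      linarith
    have h2 : 0 < cut F T N x0 :=
      mul_pos (Real.smoothTransition.pos_of_pos h1) (rho_pos hx1 hx3)
    exact (mul_pos (mul_pos (hw0 x0 hx0) (hκ0 x0 hx0 hTx0)) h2).ne'
  have hη : 0 < ∫ x, f1 N x :=
    (hf1c N).integral_pos_of_hasCompactSupport_nonneg_nonzero (hf1s N) (hf1nn N) hNpos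
  -- the second part
  set D : ℕ → E3 → ℝ := fun n x => ∑ a, pd a (Y n a) x with hD
  have hDc : ∀ n, Continuous (D n) := by
    intro n
    refine continuous_finset_sum _ fun a _ => ?_
    exact ((hYc n a).continuous_fderiv one_ne_zero).clm_apply continuous_const
  have hpdint : ∀ n a, Integrable (fun x => pd a (Y n a) x) := by
    intro n a
    have hcont : Continuous fun x => fderiv ℝ (Y n a) x (Pi.single a 1) :=
      ((hYc n a).continuous_fderiv one_ne_zero).clm_apply continuous_const
    exact hcont.integrable_of_hasCompactSupport ((hYs n a).fderiv_apply ℝ _)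
  have hDint : ∀ n, ∫ x, D n x = 0 := by
    intro n
    simp only [hD]
    rw [integral_finset_sum _ fun a _ => hpdint n a]
    exact Finset.sum_eq_zero fun a _ => hint0 n a
  have hDi : ∀ n, Integrable (D n) := fun n => integrable_finset_sum _ fun a _ => hpdint n a
  have hf1i : ∀ n, Integrable (f1 n) := fun n =>
    (hf1c n).integrable_of_hasCompactSupport (hf1s n)
  set g : ℕ → E3 → ℝ := fun n x => D n x - f1 n x with hg
  have hgint : ∀ n, ∫ x, g n x = -∫ x, f1 n x := by
    intro n
    simp only [hg]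
    rw [integral_sub (hDi n) (hf1i n), hDint, zero_sub]
  have hgoff : ∀ n x, ¬ (x ≠ 0 ∧ T x ≠ 0) → g n x = 0 := by
    intro n x hx
    have h1 : D n x = 0 := by
      refine Finset.sum_eq_zero fun a _ => ?_
      unfold pd
      rw [(hYoff n a x hx).fderiv_eq]
      simp
    simp only [hg, hf1]
    rw [h1, hcut0 n x hx]
    ring
  have hgform : ∀ n x, x ≠ 0 → T x ≠ 0 → g n x =
      w x * (rho (phi F x) * (deriv Real.smoothTransition (((n : ℝ) + 1) * T x - 1) *
        (((n : ℝ) + 1) * ∑ a, Z a x * pd a T x))) := by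
    intro n x hx hTx
    have hcd := (cut_contDiffAt hB hF hTc n hx).differentiableAt one_ne_zero
    have h1 : DifferentiableAt ℝ w x :=
      (hwc.contDiffAt (open_ne.mem_nhds hx)).differentiableAt one_ne_zero
    have h2 : ∀ a, DifferentiableAt ℝ (Z a) x := fun a =>
      ((hZc a).contDiffAt (hU.mem_nhds ⟨hx, hTx⟩)).differentiableAt one_ne_zero
    have h3 : ∀ a, pd a (Y n a) x = (w x * Z a x) * pd a (cut F T n) x +
        cut F T n x * pd a (fun y => w y * Z a y) x := by
      intro a
      have h4 := ((h1.mul (h2 a)).hasFDerivAt).mul hcd.hasFDerivAt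
      have h5 : HasFDerivAt (Y n a) _ x := h4
      unfold pd
      rw [h5.fderiv]
      simp only [ContinuousLinearMap.add_apply, ContinuousLinearMap.smul_apply, smul_eq_mul,
        Pi.mul_apply]
      rfl
    have h6 := hdiv x hx hTx
    have h7 := htan x hx hTx
    have h8 : D n x = w x * (∑ a, Z a x * pd a (cut F T n) x) + cut F T n x * (w x * κ x) := by
      simp only [hD]
      rw [Finset.sum_congr rfl fun a _ => h3 a, Finset.sum_add_distrib, ← Finset.mul_sum, h6,
        Finset.mul_sum]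
      congr 1
      refine Finset.sum_congr rfl fun a _ => ?_
      ring
    have h9 : ∑ a, Z a x * pd a (cut F T n) x =
        Real.smoothTransition (((n : ℝ) + 1) * T x - 1) * deriv rho (phi F x) *
          (∑ a, pd a (phi F) x * Z a x) +
        rho (phi F x) * (deriv Real.smoothTransition (((n : ℝ) + 1) * T x - 1) *
          (((n : ℝ) + 1) * ∑ a, Z a x * pd a T x)) := by
      rw [Finset.mul_sum, Finset.mul_sum, Finset.mul_sum, Finset.mul_sum,
        ← Finset.sum_add_distrib]
      refine Finset.sum_congr rfl fun a _ => ?_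
      rw [cut_pd hB hF hTc n hx a]
      ring
    simp only [hg, hf1]
    rw [h8, h9, h7]
    ring
  obtain ⟨M, hM0, hM⟩ := dchi_bound
  obtain ⟨W, hW⟩ := hK.exists_bound_of_continuousOn (f := w) (fun x hx =>
    ((hwc.contDiffAt (open_ne.mem_nhds (hK0 x hx))).continuousAt).continuousWithinAt)
  have hW0 : 0 ≤ W := (norm_nonneg _).trans (hW x0 ⟨hx1.le, hx3.le⟩)
  have hgb : ∀ n x, |g n x| ≤ K.indicator (fun _ => W * (M * (2 * |C|))) x := by
    intro n x
    have hB0 : 0 ≤ K.indicator (fun _ => W * (M * (2 * |C|))) x :=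
      indicator_nonneg (fun _ _ => by positivity) x
    by_cases hx : x ≠ 0 ∧ T x ≠ 0
    · by_cases hxK : x ∈ K
      · rw [indicator_of_mem hxK, hgform n x hx.1 hx.2]
        by_cases hlarge : 1 < ((n : ℝ) + 1) * T x - 1
        · rw [dchi_zero (Or.inr hlarge), zero_mul, mul_zero, mul_zero, abs_zero]
          positivity
        · have h1 : ((n : ℝ) + 1) * T x ≤ 2 := by linarith
          have h2 : 0 ≤ ((n : ℝ) + 1) * T x := mul_nonneg (by positivity) (hT0 x hx.1)
          have h3 := hbd x hxK.1 hxK.2 hx.2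
          have h4 : |((n : ℝ) + 1) * ∑ a, Z a x * pd a T x| ≤ 2 * |C| := by
            rw [abs_mul, abs_of_nonneg (by positivity : (0 : ℝ) ≤ (n : ℝ) + 1)]
            calc ((n : ℝ) + 1) * |∑ a, Z a x * pd a T x| ≤ ((n : ℝ) + 1) * (C * T x) := by
                  gcongr
              _ = C * (((n : ℝ) + 1) * T x) := by ring
              _ ≤ |C| * (((n : ℝ) + 1) * T x) := by
                  gcongr
                  exact le_abs_self C
              _ ≤ |C| * 2 := by gcongr
              _ = 2 * |C| := by ring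
          rw [abs_mul, abs_mul, abs_mul, abs_of_nonneg (rho_nonneg _)]
          have h5 : |w x| ≤ W := hW x hxK
          calc |w x| * (rho (phi F x) * (|deriv Real.smoothTransition (((n : ℝ) + 1) * T x - 1)| *
                |((n : ℝ) + 1) * ∑ a, Z a x * pd a T x|)) ≤ W * (1 * (M * (2 * |C|))) := by
                have := rho_le_one (phi F x)
                have := rho_nonneg (phi F x)
                have := hM (((n : ℝ) + 1) * T x - 1)
                gcongr
            _ = W * (M * (2 * |C|)) := by ring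
      · rw [hgform n x hx.1 hx.2]
        have : rho (phi F x) = 0 := by
          apply rho_zero
          by_contra hc
          push Not at hc
          exact hxK ⟨hc.1.le, hc.2.le⟩
        rw [this, zero_mul, mul_zero, abs_zero]
        exact hB0
    · rw [hgoff n x hx, abs_zero]
      exact hB0
  have hlim : Tendsto (fun n => ∫ x, g n x) atTop (𝓝 (∫ _ : E3, (0 : ℝ))) := by
    refine tendsto_integral_of_dominated_convergence (K.indicator fun _ => W * (M * (2 * |C|)))
      (fun n => ((hDc n).sub (hf1c n)).aestronglyMeasurable) ?_ ?_ ?_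
    · rw [integrable_indicator_iff hK.measurableSet]
      exact integrableOn_const hK.measure_lt_top.ne
    · intro n
      exact Eventually.of_forall fun x => hgb n x
    · refine Eventually.of_forall fun x => ?_
      by_cases hx : x ≠ 0 ∧ T x ≠ 0
      · have hTx : 0 < T x := lt_of_le_of_ne (hT0 x hx.1) (Ne.symm hx.2)
        refine tendsto_const_nhds.congr' ?_
        obtain ⟨m, hm⟩ := exists_nat_gt (2 / T x)
        filter_upwards [eventually_ge_atTop m] with n hn
        have h1 : (m : ℝ) ≤ n := by exact_mod_cast hn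
        have h2 : 2 < ((n : ℝ) + 1) * T x := by
          rw [div_lt_iff₀ hTx] at hm
          nlinarith
        rw [hgform n x hx.1 hx.2, dchi_zero (Or.inr (by linarith))]
        ring
      · refine tendsto_const_nhds.congr fun n => ?_
        rw [hgoff n x hx]
  rw [integral_zero] at hlim
  have hle : ∀ᶠ n in atTop, ∫ x, g n x ≤ -∫ x, f1 N x := by
    filter_upwards [eventually_ge_atTop N] with n hn
    rw [hgint]
    exact neg_le_neg (integral_mono (hf1i N) (hf1i n) (hf1mono N n hn))
  have := le_of_tendsto hlim hle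
  linarith

end Pool.Agent.H935R3.LW
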