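import Mathlib
import Pool.Agent.H935R3.LW.Stmts

/-! Task Basic of project H935-LW (written by helper782). -/

set_option autoImplicit false
open Matrix

namespace Pool.Agent.H935R3.LW
namespace Basic

/-- smooth away from the origin -/
abbrev Sm (f : E3 → ℝ) : Prop := ContDiffOn ℝ ((⊤ : ℕ∞) : WithTop ℕ∞) f {x : E3 | x ≠ 0}

lemma isOpenU : IsOpen {x : E3 | x ≠ 0} := isOpen_ne

lemma sm_fderiv {f : E3 → ℝ} (hf : Sm f) :
    ContDiffOn ℝ ((⊤ : ℕ∞) : WithTop ℕ∞) (fderiv ℝ f) {x : E3 | x ≠ 0} :=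
  hf.fderiv_of_isOpen isOpenU (m := ((⊤ : ℕ∞) : WithTop ℕ∞)) (by simp)

lemma sm_pd {f : E3 → ℝ} (hf : Sm f) (i : Fin 3) : Sm (pd i f) :=
  (sm_fderiv hf).clm_apply contDiffOn_const

lemma sm_diff {f : E3 → ℝ} (hf : Sm f) {x : E3} (hx : x ≠ 0) : DifferentiableAt ℝ f x :=
  (hf.contDiffAt (isOpenU.mem_nhds hx)).differentiableAt (by simp)

lemma pd_congr {f g : E3 → ℝ} (h : ∀ y, y ≠ 0 → f y = g y) {x : E3} (hx : x ≠ 0) (k : Fin 3) :
    pd k f x = pd k g x := by
  have e : f =ᶠ[nhds x] g := by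
    filter_upwards [isOpenU.mem_nhds hx] with y hy using h y hy
  unfold pd
  rw [e.fderiv_eq]

lemma pd_pd {f : E3 → ℝ} (hf : Sm f) {x : E3} (hx : x ≠ 0) (i j : Fin 3) :
    pd i (pd j f) x = fderiv ℝ (fderiv ℝ f) x (Pi.single i 1) (Pi.single j 1) := by
  have h1 : DifferentiableAt ℝ (fderiv ℝ f) x :=
    ((sm_fderiv hf).contDiffAt (isOpenU.mem_nhds hx)).differentiableAt (by simp)
  unfold pd
  rw [fderiv_clm_apply h1 (differentiableAt_const _)]
  simp

lemma pd_comm {f : E3 → ℝ} (hf : Sm f) {x : E3} (hx : x ≠ 0) (i j : Fin 3) :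
    pd i (pd j f) x = pd j (pd i f) x := by
  rw [pd_pd hf hx, pd_pd hf hx]
  exact (hf.contDiffAt (isOpenU.mem_nhds hx)).isSymmSndFDerivAt (by
    rw [minSmoothness_of_isRCLikeNormedField]
    exact WithTop.coe_le_coe.2 le_top) _ _

lemma sm_det {M : E3 → Matrix (Fin 3) (Fin 3) ℝ} (h : ∀ i j, Sm (fun x => M x i j)) :
    Sm (fun x => (M x).det) := by
  have e : (fun x => (M x).det) = fun x => M x 0 0 * M x 1 1 * M x 2 2 - M x 0 0 * M x 1 2 * M x 2 1
      - M x 0 1 * M x 1 0 * M x 2 2 + M x 0 1 * M x 1 2 * M x 2 0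
      + M x 0 2 * M x 1 0 * M x 2 1 - M x 0 2 * M x 1 1 * M x 2 0 := by
    funext x; exact Matrix.det_fin_three (M x)
  unfold Sm
  rw [e]
  have m : ∀ i j k l a b, Sm (fun x => M x i j * M x k l * M x a b) := fun i j k l a b =>
    ((h i j).mul (h k l)).mul (h a b)
  exact (((((m 0 0 1 1 2 2).sub (m 0 0 1 2 2 1)).sub (m 0 1 1 0 2 2)).add (m 0 1 1 2 2 0)).add
    (m 0 2 1 0 2 1)).sub (m 0 2 1 1 2 0)

lemma sm_inv {M : E3 → Matrix (Fin 3) (Fin 3) ℝ} (h : ∀ i j, Sm (fun x => M x i j))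
    (hd : ∀ x, x ≠ 0 → (M x).det ≠ 0) (i j : Fin 3) : Sm (fun x => (M x)⁻¹ i j) := by
  have hadj : Sm (fun x => (M x).adjugate i j) := by
    have e : (fun x => (M x).adjugate i j) = fun x => ((M x).updateRow j (Pi.single i 1)).det := by
      funext x; rw [Matrix.adjugate_apply]
    unfold Sm
    rw [e]
    refine sm_det (M := fun x => (M x).updateRow j (Pi.single i 1)) fun a b => ?_
    by_cases hab : a = j
    · subst hab
      have : (fun x => (M x).updateRow a (Pi.single i 1) a b) = fun _ => (Pi.single i 1 : Fin 3 → ℝ) b := by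
        funext x; rw [Matrix.updateRow_self]
      unfold Sm
      rw [this]
      exact contDiffOn_const
    · have : (fun x => (M x).updateRow j (Pi.single i 1) a b) = fun x => M x a b := by
        funext x; rw [Matrix.updateRow_ne hab]
      unfold Sm
      rw [this]
      exact h a b
  have e : ∀ x, (M x)⁻¹ i j = (M x).det⁻¹ * (M x).adjugate i j := by
    intro x
    rw [Matrix.inv_def, Ring.inverse_eq_inv', Matrix.smul_apply, smul_eq_mul]
  have : (fun x => (M x)⁻¹ i j) = fun x => (M x).det⁻¹ * (M x).adjugate i j := funext e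
  unfold Sm
  rw [this]
  exact ((sm_det h).inv hd).mul hadj

lemma pd_sum {f : Fin 3 → E3 → ℝ} {x : E3} (h : ∀ q, DifferentiableAt ℝ (f q) x) (k : Fin 3) :
    pd k (fun y => ∑ q, f q y) x = ∑ q, pd k (f q) x := by
  unfold pd
  rw [fderiv_fun_sum fun q _ => h q]
  simp

lemma pd_mul {f g : E3 → ℝ} {x : E3} (hf : DifferentiableAt ℝ f x) (hg : DifferentiableAt ℝ g x)
    (k : Fin 3) : pd k (fun y => f y * g y) x = pd k f x * g x + f x * pd k g x := by
  unfold pd
  rw [fderiv_fun_mul hf hg]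
  simp
  ring

lemma pd_const (c : ℝ) (x : E3) (k : Fin 3) : pd k (fun _ => c) x = 0 := by
  unfold pd
  simp

end Basic

open Basic in
theorem taskBasic : TaskBasic := by
  intro F hF
  have sphi : Sm (phi F) := (hF.smooth.pow 2).div_const 2
  have s1 : ∀ i, Sm (pd i (phi F)) := fun i => sm_pd sphi i
  have sG : ∀ i j, Sm (fun x => G F x i j) := fun i j => sm_pd (s1 i) j
  have scc : ∀ i j k, Sm (fun x => cc F x i j k) := fun i j k => sm_pd (sG i j) k
  have sdd : ∀ i j k l, Sm (fun x => dd F x i j k l) := fun i j k l => sm_pd (scc i j k) l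
  have see : ∀ i j k l m, Sm (fun x => ee F x i j k l m) := fun i j k l m => sm_pd (sdd i j k l) m
  have hdet : ∀ x, x ≠ 0 → (G F x).det ≠ 0 := fun x hx => (hF.posdef x hx).det_pos.ne'
  have shh : ∀ i j, Sm (fun x => hh F x i j) := fun i j => sm_inv sG hdet i j
  have gG : ∀ x, x ≠ 0 → ∀ i j, G F x i j = G F x j i := fun x hx i j => pd_comm sphi hx j i
  have gh : ∀ x, x ≠ 0 → ∀ i j, hh F x i j = hh F x j i := by
    intro x hx i j
    have hT : (G F x)ᵀ = G F x := by
      ext a b; exact gG x hx b a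
    show (G F x)⁻¹ i j = (G F x)⁻¹ j i
    rw [← Matrix.transpose_apply (G F x)⁻¹ i j, Matrix.transpose_nonsing_inv, hT]
  have c1 : ∀ x, x ≠ 0 → ∀ i j k, cc F x i j k = cc F x j i k := fun x hx i j k =>
    pd_congr (fun y hy => gG y hy i j) hx k
  have c2 : ∀ x, x ≠ 0 → ∀ i j k, cc F x i j k = cc F x i k j := fun x hx i j k =>
    pd_comm (s1 i) hx k j
  have d1 : ∀ x, x ≠ 0 → ∀ i j k l, dd F x i j k l = dd F x j i k l := fun x hx i j k l =>
    pd_congr (fun y hy => c1 y hy i j k) hx l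
  have d2 : ∀ x, x ≠ 0 → ∀ i j k l, dd F x i j k l = dd F x i k j l := fun x hx i j k l =>
    pd_congr (fun y hy => c2 y hy i j k) hx l
  have d3 : ∀ x, x ≠ 0 → ∀ i j k l, dd F x i j k l = dd F x i j l k := fun x hx i j k l =>
    pd_comm (sG i j) hx l k
  have e1 : ∀ x, x ≠ 0 → ∀ i j k l m, ee F x i j k l m = ee F x j i k l m := fun x hx i j k l m =>
    pd_congr (fun y hy => d1 y hy i j k l) hx m
  have e2 : ∀ x, x ≠ 0 → ∀ i j k l m, ee F x i j k l m = ee F x i k j l m := fun x hx i j k l m =>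
    pd_congr (fun y hy => d2 y hy i j k l) hx m
  have e3 : ∀ x, x ≠ 0 → ∀ i j k l m, ee F x i j k l m = ee F x i j l k m := fun x hx i j k l m =>
    pd_congr (fun y hy => d3 y hy i j k l) hx m
  have e4 : ∀ x, x ≠ 0 → ∀ i j k l m, ee F x i j k l m = ee F x i j k m l := fun x hx i j k l m =>
    pd_comm (scc i j k) hx m l
  refine ⟨sphi, s1, sG, scc, sdd, see, shh, fun x hx => ⟨gG x hx, gh x hx, c1 x hx, c2 x hx,
    d1 x hx, d2 x hx, d3 x hx, e1 x hx, e2 x hx, e3 x hx, e4 x hx, fun i j k => ?_⟩⟩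
  -- derivative of the inverse
  have hinv : ∀ y, y ≠ 0 → ∀ i r, ∑ q, hh F y i q * G F y q r = if i = r then 1 else 0 := by
    intro y hy i r
    have h1 : (G F y)⁻¹ * G F y = 1 := Matrix.nonsing_inv_mul _ (hdet y hy).isUnit
    have h2 := congrFun (congrFun h1 i) r
    rw [Matrix.mul_apply, Matrix.one_apply] at h2
    exact h2
  have hinv' : ∀ y, y ≠ 0 → ∀ i r, ∑ q, G F y i q * hh F y q r = if i = r then 1 else 0 := by
    intro y hy i r
    have h1 : G F y * (G F y)⁻¹ = 1 := Matrix.mul_nonsing_inv _ (hdet y hy).isUnit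
    have h2 := congrFun (congrFun h1 i) r
    rw [Matrix.mul_apply, Matrix.one_apply] at h2
    exact h2
  have hprod : ∀ r, ∑ q, (pd k (fun y => hh F y i q) x * G F x q r +
      hh F x i q * cc F x q r k) = 0 := by
    intro r
    have h1 : pd k (fun y => ∑ q, hh F y i q * G F y q r) x = 0 := by
      rw [pd_congr (g := fun _ => if i = r then 1 else 0) (fun y hy => hinv y hy i r) hx k]
      exact pd_const _ x k
    rw [pd_sum (f := fun q y => hh F y i q * G F y q r)
      (fun q => (sm_diff (shh i q) hx).mul (sm_diff (sG q r) hx))] at h1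
    rw [← h1]
    refine Finset.sum_congr rfl fun q _ => ?_
    rw [pd_mul (sm_diff (shh i q) hx) (sm_diff (sG q r) hx)]
    rfl
  have hL : ∑ r, (∑ q, (pd k (fun y => hh F y i q) x * G F x q r +
      hh F x i q * cc F x q r k)) * hh F x r j = 0 := by
    refine Finset.sum_eq_zero fun r _ => ?_
    rw [hprod r, zero_mul]
  have hR : ∑ r, (∑ q, (pd k (fun y => hh F y i q) x * G F x q r +
      hh F x i q * cc F x q r k)) * hh F x r j =
      (∑ q, pd k (fun y => hh F y i q) x * ∑ r, G F x q r * hh F x r j) +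
      ∑ p, ∑ q, hh F x i p * cc F x p q k * hh F x q j := by
    simp only [Fin.sum_univ_three]
    ring
  rw [hR] at hL
  simp only [hinv' x hx] at hL
  simp only [mul_ite, mul_one, mul_zero, Finset.sum_ite_eq', Finset.mem_univ, if_true] at hL
  linarith

end Pool.Agent.H935R3.LW
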