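import Pool.Agent.H935R3.LW.Stmts

/-! Task Bridge of project H935-LW (written by helper182). -/

set_option autoImplicit false
open Matrix

namespace Pool.Agent.H935R3.LW

namespace BridgeW

theorem isOpen_ne0 : IsOpen {x : E3 | x ≠ 0} := _root_.isOpen_ne

abbrev Sm (f : E3 → ℝ) : Prop := ContDiffOn ℝ ((⊤ : ℕ∞) : WithTop ℕ∞) f {x | x ≠ 0}

theorem Sm.at {f : E3 → ℝ} (h : Sm f) {x : E3} (hx : x ≠ 0) :
    ContDiffAt ℝ ((⊤ : ℕ∞) : WithTop ℕ∞) f x := h.contDiffAt (isOpen_ne0.mem_nhds hx)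

theorem Sm.pd {f : E3 → ℝ} (h : Sm f) (i : Fin 3) : Sm (pd i f) := by
  have h1 : ContDiffOn ℝ ((⊤ : ℕ∞) : WithTop ℕ∞) (fderiv ℝ f) {x | x ≠ 0} :=
    h.fderiv_of_isOpen isOpen_ne0 (by simp)
  exact h1.clm_apply contDiffOn_const

/-- derivative of a partial derivative -/
theorem pd_pd {f : E3 → ℝ} (h : Sm f) {x : E3} (hx : x ≠ 0) (i j : Fin 3) :
    Pool.Agent.H935R3.LW.pd i (Pool.Agent.H935R3.LW.pd j f) x =
      fderiv ℝ (fderiv ℝ f) x (Pi.single i 1) (Pi.single j 1) := by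
  have h1 : ContDiffAt ℝ ((⊤ : ℕ∞) : WithTop ℕ∞) (fderiv ℝ f) x :=
    (h.at hx).fderiv_right (by simp)
  have h2 : DifferentiableAt ℝ (fderiv ℝ f) x := h1.differentiableAt (by simp)
  have h3 : HasFDerivAt (fun y => fderiv ℝ f y (Pi.single j 1))
      ((fderiv ℝ (fderiv ℝ f) x).flip (Pi.single j 1)) x := by
    have := h2.hasFDerivAt.clm_apply (hasFDerivAt_const (Pi.single j (1 : ℝ) : E3) x)
    simpa using this
  show fderiv ℝ (fun y => fderiv ℝ f y (Pi.single j 1)) x (Pi.single i 1) = _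
  rw [h3.fderiv]
  simp [ContinuousLinearMap.flip_apply]

theorem pd_comm {f : E3 → ℝ} (h : Sm f) {x : E3} (hx : x ≠ 0) (i j : Fin 3) :
    Pool.Agent.H935R3.LW.pd i (Pool.Agent.H935R3.LW.pd j f) x =
      Pool.Agent.H935R3.LW.pd j (Pool.Agent.H935R3.LW.pd i f) x := by
  rw [pd_pd h hx, pd_pd h hx]
  have h1 : IsSymmSndFDerivAt ℝ f x := by
    refine (h.at hx).isSymmSndFDerivAt ?_
    rw [minSmoothness_of_isRCLikeNormedField]
    exact WithTop.coe_le_coe.2 le_top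
  exact h1.eq _ _

theorem smphi {F : E3 → ℝ} (h : Sm F) : Sm (phi F) := by
  have : ContDiffOn ℝ ((⊤ : ℕ∞) : WithTop ℕ∞) (fun x => F x ^ 2 / 2) {x | x ≠ 0} :=
    (h.pow 2).div_const 2
  exact this

/-- derivative depends only on the germ -/
theorem pd_congr {f g : E3 → ℝ} {x : E3} (hx : x ≠ 0) (h : ∀ y, y ≠ 0 → f y = g y) (i : Fin 3) :
    Pool.Agent.H935R3.LW.pd i f x = Pool.Agent.H935R3.LW.pd i g x := by
  have : f =ᶠ[nhds x] g := by
    filter_upwards [isOpen_ne0.mem_nhds hx] with y hy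
    exact h y hy
  unfold Pool.Agent.H935R3.LW.pd
  rw [this.fderiv_eq]

theorem two {F : E3 → ℝ} (h : Sm F) {x : E3} (hx : x ≠ 0) (i j : Fin 3) :
    iteratedFDeriv ℝ 2 (fun y : Fin 3 → ℝ => F y ^ 2 / 2) x
      ![(Pi.single i (1 : ℝ) : Fin 3 → ℝ), (Pi.single j (1 : ℝ) : Fin 3 → ℝ)] = G F x i j := by
  have hp := smphi h
  have e : (fun y : Fin 3 → ℝ => F y ^ 2 / 2) = phi F := rfl
  rw [iteratedFDeriv_two_apply, e]
  show _ = Pool.Agent.H935R3.LW.pd j (Pool.Agent.H935R3.LW.pd i (phi F)) x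
  rw [pd_comm hp hx, pd_pd hp hx]
  rfl

theorem three {F : E3 → ℝ} (h : Sm F) {x : E3} (hx : x ≠ 0) (i j k : Fin 3) :
    iteratedFDeriv ℝ 3 (fun y : Fin 3 → ℝ => F y ^ 2 / 2) x
      ![(Pi.single i (1 : ℝ) : Fin 3 → ℝ), (Pi.single j (1 : ℝ) : Fin 3 → ℝ),
        (Pi.single k (1 : ℝ) : Fin 3 → ℝ)] = cc F x i j k := by
  have hp := smphi h
  have hd : DifferentiableAt ℝ (iteratedFDeriv ℝ 2 (fun y : Fin 3 → ℝ => F y ^ 2 / 2)) x := by
    have h0 : ContDiffAt ℝ ((3 : ℕ) : WithTop ℕ∞) (fun y : Fin 3 → ℝ => F y ^ 2 / 2) x :=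
      (hp.at hx).of_le (WithTop.coe_le_coe.2 le_top)
    exact h0.differentiableAt_iteratedFDeriv (by norm_num)
  rw [DifferentiableAt.iteratedFDeriv_succ_apply_left' hd]
  have e1 : fderiv ℝ (fun y : Fin 3 → ℝ => iteratedFDeriv ℝ 2 (fun y : Fin 3 → ℝ => F y ^ 2 / 2) y
      (Fin.tail ![(Pi.single i (1 : ℝ) : Fin 3 → ℝ), (Pi.single j (1 : ℝ) : Fin 3 → ℝ),
        (Pi.single k (1 : ℝ) : Fin 3 → ℝ)])) x
      (![(Pi.single i (1 : ℝ) : Fin 3 → ℝ), (Pi.single j (1 : ℝ) : Fin 3 → ℝ),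
        (Pi.single k (1 : ℝ) : Fin 3 → ℝ)] 0) =
      Pool.Agent.H935R3.LW.pd i (fun y => G F y j k) x := by
    refine pd_congr (f := fun y : Fin 3 → ℝ => iteratedFDeriv ℝ 2
      (fun y : Fin 3 → ℝ => F y ^ 2 / 2) y
      ![(Pi.single j (1 : ℝ) : Fin 3 → ℝ), (Pi.single k (1 : ℝ) : Fin 3 → ℝ)]) hx ?_ i
    intro y hy
    exact two h hy j k
  rw [e1]
  show Pool.Agent.H935R3.LW.pd i
      (Pool.Agent.H935R3.LW.pd k (Pool.Agent.H935R3.LW.pd j (phi F))) x =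
    Pool.Agent.H935R3.LW.pd k
      (Pool.Agent.H935R3.LW.pd j (Pool.Agent.H935R3.LW.pd i (phi F))) x
  rw [pd_comm (hp.pd j) hx]
  exact pd_congr hx (fun y hy => pd_comm hp hy i j) k

end BridgeW

open BridgeW in
theorem taskBridge : TaskBridge := by
  intro F h1 h2 h3 h4 h5
  refine ⟨h1, h2, h3, ?_, ?_⟩
  · intro x hx
    have := h4 x hx
    have e : (Matrix.of fun i j : Fin 3 =>
        iteratedFDeriv ℝ 2 (fun y : Fin 3 → ℝ => F y ^ 2 / 2) x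
          ![(Pi.single i (1 : ℝ) : Fin 3 → ℝ), (Pi.single j (1 : ℝ) : Fin 3 → ℝ)]) = G F x := by
      ext i j
      exact two h1 hx i j
    rw [e] at this
    exact this
  · intro x hx i j k l
    have := h5 x hx i j k l
    have e : (Matrix.of fun i j : Fin 3 =>
        iteratedFDeriv ℝ 2 (fun y : Fin 3 → ℝ => F y ^ 2 / 2) x
          ![(Pi.single i (1 : ℝ) : Fin 3 → ℝ), (Pi.single j (1 : ℝ) : Fin 3 → ℝ)]) = G F x := by
      ext i j
      exact two h1 hx i j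
    rw [e] at this
    simp only [three h1 hx] at this
    exact this

end Pool.Agent.H935R3.LW
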