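import Pool.Agent.H935R3.LW.Stmts

set_option autoImplicit false
open Matrix

/-! # Task `Comp` of the project on the Laugwitz conjecture (n = 3)

Composition of a Minkowski norm with an invertible matrix. -/

namespace Pool.Agent.H935R3.LW

namespace CompAux

/-- the continuous linear map of a matrix -/
noncomputable def Lm (P : Matrix (Fin 3) (Fin 3) ℝ) : E3 →L[ℝ] E3 :=
  LinearMap.toContinuousLinearMap (Matrix.mulVecLin P)

lemma Lm_apply (P : Matrix (Fin 3) (Fin 3) ℝ) (y : E3) : Lm P y = P *ᵥ y := rfl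

lemma fderiv_eq_sum (f : E3 → ℝ) (z v : E3) :
    fderiv ℝ f z v = ∑ a, v a * pd a f z := by
  have hv : v = ∑ a, v a • (Pi.single a (1 : ℝ) : E3) := by
    funext b
    simp [Finset.sum_apply, Pi.single_apply]
  conv_lhs => rw [hv]
  rw [map_sum]
  refine Finset.sum_congr rfl fun a _ => ?_
  rw [map_smul, smul_eq_mul]
  rfl

lemma pd_comp (P : Matrix (Fin 3) (Fin 3) ℝ) (f : E3 → ℝ) (y : E3) (i : Fin 3)
    (hf : DifferentiableAt ℝ f (P *ᵥ y)) :
    pd i (fun z => f (P *ᵥ z)) y = ∑ a, P a i * pd a f (P *ᵥ y) := by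
  have h1 : HasFDerivAt (fun z => f (P *ᵥ z)) ((fderiv ℝ f (P *ᵥ y)).comp (Lm P)) y := by
    have h2 : HasFDerivAt (fun z : E3 => P *ᵥ z) (Lm P) y := (Lm P).hasFDerivAt
    exact HasFDerivAt.comp y (g := f) (f := fun z : E3 => P *ᵥ z) hf.hasFDerivAt h2
  unfold pd
  rw [h1.fderiv, ContinuousLinearMap.comp_apply, Lm_apply, fderiv_eq_sum]
  refine Finset.sum_congr rfl fun a _ => ?_
  congr 1
  simp

/-- derivative of a finite combination of composed functions -/
lemma pd_of_eq {ι : Type} [Fintype ι] (P : Matrix (Fin 3) (Fin 3) ℝ) (f : E3 → ℝ)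
    (w : ι → ℝ) (g : ι → E3 → ℝ) (y : E3) (hy : y ≠ 0) (j : Fin 3)
    (hfg : ∀ z : E3, z ≠ 0 → f z = ∑ a, w a * g a (P *ᵥ z))
    (hg : ∀ a, DifferentiableAt ℝ (g a) (P *ᵥ y)) :
    pd j f y = ∑ a, w a * ∑ b, P b j * pd b (g a) (P *ᵥ y) := by
  have hev : f =ᶠ[nhds y] fun z => ∑ a, w a * g a (P *ᵥ z) := by
    filter_upwards [isOpen_ne.mem_nhds hy] with z hz using hfg z hz
  have h2 : HasFDerivAt (fun z : E3 => P *ᵥ z) (Lm P) y := (Lm P).hasFDerivAt
  have hcomp : ∀ a, DifferentiableAt ℝ (fun z => g a (P *ᵥ z)) y := fun a =>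
    DifferentiableAt.comp y (g := g a) (f := fun z : E3 => P *ᵥ z) (hg a) h2.differentiableAt
  have h3 : fderiv ℝ f y = ∑ a, w a • fderiv ℝ (fun z => g a (P *ᵥ z)) y := by
    rw [hev.fderiv_eq]
    rw [fderiv_fun_sum (fun a _ => (hcomp a).const_mul (w a))]
    refine Finset.sum_congr rfl fun a _ => ?_
    exact fderiv_const_mul (hcomp a) (w a)
  have h4 : pd j f y = ∑ a, w a * pd j (fun z => g a (P *ᵥ z)) y := by
    unfold pd
    rw [h3]
    simp
  rw [h4]
  refine Finset.sum_congr rfl fun a _ => ?_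
  rw [pd_comp P (g a) y j (hg a)]

lemma step1 (P : Matrix (Fin 3) (Fin 3) ℝ) (h h1 : A2) (c : A3)
    (hh1 : ∀ m n, h m n = ∑ p, ∑ q, P m p * P n q * h1 p q) (i j k l : Fin 3) :
    ∑ p, ∑ q, h1 p q * ((∑ m, P m p * c i k m) * (∑ n, P n q * c j l n)
      - (∑ m, P m p * c i l m) * (∑ n, P n q * c j k n)) =
    ∑ p, ∑ q, h p q * (c i k p * c j l q - c i l p * c j k q) := by
  simp only [hh1, Fin.sum_univ_three]
  ring

lemma step2 (P : Matrix (Fin 3) (Fin 3) ℝ) (h : A2) (c : A3) (i j k l : Fin 3) :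
    ∑ p, ∑ q, h p q * ((∑ m, P m k * c i m p) * (∑ n, P n l * c j n q)
      - (∑ m, P m l * c i m p) * (∑ n, P n k * c j n q)) =
    ∑ m, ∑ n, P m k * P n l * ∑ p, ∑ q, h p q * (c i m p * c j n q - c i n p * c j m q) := by
  simp only [Fin.sum_univ_three]
  ring

lemma step3 (P : Matrix (Fin 3) (Fin 3) ℝ) (h : A2) (c : A3) (i j k l : Fin 3) :
    ∑ p, ∑ q, h p q * ((∑ m, P m i * c m k p) * (∑ n, P n j * c n l q)
      - (∑ m, P m i * c m l p) * (∑ n, P n j * c n k q)) =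
    ∑ m, ∑ n, P m i * P n j * ∑ p, ∑ q, h p q * (c m k p * c n l q - c m l p * c n k q) := by
  simp only [Fin.sum_univ_three]
  ring

lemma flat_transform (P : Matrix (Fin 3) (Fin 3) ℝ) (h h1 : A2) (c c1 : A3)
    (hh1 : ∀ m n, h m n = ∑ p, ∑ q, P m p * P n q * h1 p q)
    (hc : ∀ i j k, c1 i j k = ∑ a, ∑ b, ∑ m, P a i * P b j * P m k * c a b m)
    (hfl : ∀ i j k l : Fin 3,
      ∑ p, ∑ q, h p q * (c i k p * c j l q - c i l p * c j k q) = 0) (i j k l : Fin 3) :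
    ∑ p, ∑ q, h1 p q * (c1 i k p * c1 j l q - c1 i l p * c1 j k q) = 0 := by
  have hc' : ∀ i j k, c1 i j k = ∑ a, P a i * ∑ b, P b j * ∑ m, P m k * c a b m := by
    intro i j k
    rw [hc]
    simp only [Finset.mul_sum]
    refine Finset.sum_congr rfl fun a _ => Finset.sum_congr rfl fun b _ =>
      Finset.sum_congr rfl fun m _ => by ring
  simp only [hc']
  rw [step3 P h1 (fun a j k => ∑ b, P b j * ∑ m, P m k * c a b m) i j k l]
  refine Finset.sum_eq_zero fun a _ => Finset.sum_eq_zero fun a' _ => ?_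
  refine mul_eq_zero_of_right _ ?_
  refine (step2 P h1 (fun a b k => ∑ m, P m k * c a b m) a a' k l).trans ?_
  have h3 : ∀ m n : Fin 3, ∑ p, ∑ q, h1 p q * ((∑ s, P s p * c a m s) * (∑ s, P s q * c a' n s)
      - (∑ s, P s p * c a n s) * (∑ s, P s q * c a' m s)) = 0 := by
    intro m n
    rw [step1 P h h1 c hh1 a a' m n]
    exact hfl a a' m n
  simp only [h3, mul_zero, Finset.sum_const_zero]

end CompAux

open CompAux

theorem taskComp : TaskComp := by
  intro hB F hF P hP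
  obtain ⟨s0, s1, s2, s3, s4, s5, s6, s7⟩ := hB F hF
  have hopen : IsOpen {x : E3 | x ≠ 0} := isOpen_ne
  have hne : ∀ y : E3, y ≠ 0 → P *ᵥ y ≠ 0 := by
    intro y hy h0
    exact hy (Matrix.eq_zero_of_mulVec_eq_zero hP h0)
  have hdiff : ∀ f : E3 → ℝ, ContDiffOn ℝ ((⊤ : ℕ∞) : WithTop ℕ∞) f {x | x ≠ 0} →
      ∀ z : E3, z ≠ 0 → DifferentiableAt ℝ f z := by
    intro f hf z hz
    exact ((hf.contDiffAt (hopen.mem_nhds hz)).differentiableAt (by simp))
  have hphi : ∀ i, ∀ y : E3, y ≠ 0 → pd i (phi (fun y => F (P *ᵥ y))) y =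
      ∑ a, P a i * pd a (phi F) (P *ᵥ y) := by
    intro i y hy
    exact pd_comp P (phi F) y i (hdiff _ s0 _ (hne y hy))
  have hG : ∀ y : E3, y ≠ 0 → ∀ i j, G (fun y => F (P *ᵥ y)) y i j =
      ∑ a, ∑ b, P a i * P b j * G F (P *ᵥ y) a b := by
    intro y hy i j
    have h1 := pd_of_eq P (pd i (phi (fun y => F (P *ᵥ y)))) (fun a => P a i)
      (fun a => pd a (phi F)) y hy j (fun z hz => hphi i z hz)
      (fun a => hdiff _ (s1 a) _ (hne y hy))
    have h2 : G (fun y => F (P *ᵥ y)) y i j = pd j (pd i (phi (fun y => F (P *ᵥ y)))) y := rfl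
    rw [h2, h1]
    refine Finset.sum_congr rfl fun a _ => ?_
    rw [Finset.mul_sum]
    refine Finset.sum_congr rfl fun b _ => ?_
    have h3 : G F (P *ᵥ y) a b = pd b (pd a (phi F)) (P *ᵥ y) := rfl
    rw [h3]
    ring
  have hcc : ∀ y : E3, y ≠ 0 → ∀ i j k, cc (fun y => F (P *ᵥ y)) y i j k =
      ∑ a, ∑ b, ∑ m, P a i * P b j * P m k * cc F (P *ᵥ y) a b m := by
    intro y hy i j k
    have h1 := pd_of_eq P (fun z => G (fun y => F (P *ᵥ y)) z i j)
      (fun ab : Fin 3 × Fin 3 => P ab.1 i * P ab.2 j)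
      (fun ab => fun z => G F z ab.1 ab.2) y hy k
      (fun z hz => by
        rw [hG z hz i j, Fintype.sum_prod_type])
      (fun ab => hdiff _ (s2 ab.1 ab.2) _ (hne y hy))
    have h2 : cc (fun y => F (P *ᵥ y)) y i j k =
      pd k (fun z => G (fun y => F (P *ᵥ y)) z i j) y := rfl
    rw [h2, h1, Fintype.sum_prod_type]
    refine Finset.sum_congr rfl fun a _ => Finset.sum_congr rfl fun b _ => ?_
    rw [Finset.mul_sum]
    refine Finset.sum_congr rfl fun m _ => ?_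
    have h3 : cc F (P *ᵥ y) a b m = pd m (fun z => G F z a b) (P *ᵥ y) := rfl
    rw [h3]
    ring
  have hdd : ∀ y : E3, y ≠ 0 → ∀ i j k l, dd (fun y => F (P *ᵥ y)) y i j k l =
      ∑ a, ∑ b, ∑ m, ∑ n, P a i * P b j * P m k * P n l * dd F (P *ᵥ y) a b m n := by
    intro y hy i j k l
    have h1 := pd_of_eq P (fun z => cc (fun y => F (P *ᵥ y)) z i j k)
      (fun ab : Fin 3 × Fin 3 × Fin 3 => P ab.1 i * P ab.2.1 j * P ab.2.2 k)
      (fun ab => fun z => cc F z ab.1 ab.2.1 ab.2.2) y hy l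
      (fun z hz => by
        rw [hcc z hz i j k, Fintype.sum_prod_type]
        refine Finset.sum_congr rfl fun a _ => ?_
        rw [Fintype.sum_prod_type])
      (fun ab => hdiff _ (s3 ab.1 ab.2.1 ab.2.2) _ (hne y hy))
    have h2 : dd (fun y => F (P *ᵥ y)) y i j k l =
      pd l (fun z => cc (fun y => F (P *ᵥ y)) z i j k) y := rfl
    rw [h2, h1, Fintype.sum_prod_type]
    refine Finset.sum_congr rfl fun a _ => ?_
    rw [Fintype.sum_prod_type]
    refine Finset.sum_congr rfl fun b _ => Finset.sum_congr rfl fun m _ => ?_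
    rw [Finset.mul_sum]
    refine Finset.sum_congr rfl fun n _ => ?_
    have h3 : dd F (P *ᵥ y) a b m n = pd n (fun z => cc F z a b m) (P *ᵥ y) := rfl
    rw [h3]
    ring
  have hGm : ∀ y : E3, y ≠ 0 → G (fun y => F (P *ᵥ y)) y = Pᵀ * G F (P *ᵥ y) * P := by
    intro y hy
    ext i j
    rw [hG y hy i j]
    simp only [Matrix.mul_apply, Matrix.transpose_apply, Fin.sum_univ_three]
    ring
  refine ⟨?_, fun y hy => ⟨hne y hy, hGm y hy, hcc y hy, hdd y hy⟩⟩
  have hdetu : IsUnit P.det := isUnit_iff_ne_zero.mpr hP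
  have hdetT : IsUnit (Pᵀ).det := by rw [Matrix.det_transpose]; exact hdetu
  refine ⟨?_, ?_, ?_, ?_, ?_⟩
  · have h1 : ContDiffOn ℝ ((⊤ : ℕ∞) : WithTop ℕ∞) (fun y : E3 => P *ᵥ y) {x | x ≠ 0} :=
      (Lm P).contDiff.contDiffOn
    exact ContDiffOn.comp hF.smooth h1 (fun y hy => hne y hy)
  · intro y hy
    exact hF.pos _ (hne y hy)
  · intro t y ht
    rw [Matrix.mulVec_smul, hF.hom t _ ht]
  · intro y hy
    rw [hGm y hy]
    have h1 := (hF.posdef _ (hne y hy))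
    have hinj : Function.Injective P.mulVec := by
      intro u v huv
      have h3 : P *ᵥ (u - v) = 0 := by
        rw [Matrix.mulVec_sub]
        exact sub_eq_zero.mpr huv
      exact sub_eq_zero.mp (Matrix.eq_zero_of_mulVec_eq_zero hP h3)
    have h2 := h1.conjTranspose_mul_mul_same hinj
    rwa [Matrix.conjTranspose_eq_transpose_of_trivial] at h2
  · intro y hy i j k l
    refine flat_transform P (hh F (P *ᵥ y)) (hh (fun y => F (P *ᵥ y)) y) (cc F (P *ᵥ y))
      (cc (fun y => F (P *ᵥ y)) y) ?_ (hcc y hy) (hF.flat _ (hne y hy)) i j k l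
    intro m n
    have hinv : (G F (P *ᵥ y))⁻¹ = P * (G (fun y => F (P *ᵥ y)) y)⁻¹ * Pᵀ := by
      rw [hGm y hy, Matrix.mul_inv_rev, Matrix.mul_inv_rev]
      rw [← Matrix.mul_assoc P, Matrix.mul_nonsing_inv P hdetu, Matrix.one_mul,
        Matrix.mul_assoc, Matrix.nonsing_inv_mul _ hdetT, Matrix.mul_one]
    have h3 : hh F (P *ᵥ y) m n = (G F (P *ᵥ y))⁻¹ m n := rfl
    rw [h3, hinv]
    simp only [Matrix.mul_apply, Matrix.transpose_apply, Fin.sum_univ_three, hh]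
    ring

end Pool.Agent.H935R3.LW
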