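import Pool.Agent.H935R3.LW.Stmts

/-! Task DER: derivatives of `Vt` and `ss`. -/

set_option autoImplicit false

namespace Pool.Agent.H935R3.LW.Der

open Pool.Agent.H935R3.LW

/-- `f` is differentiable at `x` with partial derivative `v` in the direction `k` -/
def Dv (k : Fin 3) (x : E3) (f : E3 → ℝ) (v : ℝ) : Prop := DifferentiableAt ℝ f x ∧ pd k f x = v

variable {k : Fin 3} {x : E3}

theorem Dv.congr {f : E3 → ℝ} {v w : ℝ} (h : Dv k x f v) (e : v = w) : Dv k x f w := e ▸ h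

theorem Dv.add {f g : E3 → ℝ} {v w : ℝ} (hf : Dv k x f v) (hg : Dv k x g w) :
    Dv k x (fun y => f y + g y) (v + w) := by
  refine ⟨hf.1.add hg.1, ?_⟩
  have h := (hf.1.hasFDerivAt.add hg.1.hasFDerivAt).fderiv
  have h2 : pd k (fun y => f y + g y) x = pd k f x + pd k g x := by
    unfold pd
    rw [show (fun y => f y + g y) = f + g from rfl, h]
    rfl
  rw [h2, hf.2, hg.2]

theorem Dv.sub {f g : E3 → ℝ} {v w : ℝ} (hf : Dv k x f v) (hg : Dv k x g w) :
    Dv k x (fun y => f y - g y) (v - w) := by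
  refine ⟨hf.1.sub hg.1, ?_⟩
  have h := (hf.1.hasFDerivAt.sub hg.1.hasFDerivAt).fderiv
  have h2 : pd k (fun y => f y - g y) x = pd k f x - pd k g x := by
    unfold pd
    rw [show (fun y => f y - g y) = f - g from rfl, h]
    rfl
  rw [h2, hf.2, hg.2]

theorem Dv.mul {f g : E3 → ℝ} {v w : ℝ} (hf : Dv k x f v) (hg : Dv k x g w) :
    Dv k x (fun y => f y * g y) (v * g x + f x * w) := by
  refine ⟨hf.1.mul hg.1, ?_⟩
  have h := (hf.1.hasFDerivAt.mul hg.1.hasFDerivAt).fderiv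
  have h2 : pd k (fun y => f y * g y) x = pd k f x * g x + f x * pd k g x := by
    unfold pd
    rw [show (fun y => f y * g y) = f * g from rfl, h]
    simp only [ContinuousLinearMap.add_apply, ContinuousLinearMap.smul_apply, smul_eq_mul]
    ring
  rw [h2, hf.2, hg.2]

theorem Dv.const (c : ℝ) : Dv k x (fun _ => c) 0 := by
  refine ⟨differentiableAt_const c, ?_⟩
  unfold pd
  simp

theorem Dv.inv {g : E3 → ℝ} {w : ℝ} (hg : Dv k x g w) (h0 : g x ≠ 0) :
    Dv k x (fun y => (g y)⁻¹) (-w / g x ^ 2) := by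
  refine ⟨hg.1.inv h0, ?_⟩
  have h := ((hasDerivAt_inv h0).comp_hasFDerivAt x hg.1.hasFDerivAt).fderiv
  have h2 : pd k (fun y => (g y)⁻¹) x = -(g x ^ 2)⁻¹ * pd k g x := by
    unfold pd
    rw [show (fun y => (g y)⁻¹) = Inv.inv ∘ g from rfl, h]
    simp
  rw [h2, hg.2]
  field_simp

theorem Dv.div {f g : E3 → ℝ} {v w : ℝ} (hf : Dv k x f v) (hg : Dv k x g w) (h0 : g x ≠ 0) :
    Dv k x (fun y => f y / g y) ((v * g x - f x * w) / g x ^ 2) := by
  have h := hf.mul (hg.inv h0)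
  simp only [← div_eq_mul_inv] at h
  refine h.congr ?_
  field_simp
  ring

theorem Dv.sum {f : Fin 3 → E3 → ℝ} {v : Fin 3 → ℝ} (h : ∀ i, Dv k x (f i) (v i)) :
    Dv k x (fun y => ∑ i, f i y) (∑ i, v i) := by
  simp only [Fin.sum_univ_three]
  exact ((h 0).add (h 1)).add (h 2)

section levels

variable {H : E3 → A2} {C : E3 → A3} {D : E3 → A4} {X : E3 → E3} {q : E3 → ℝ}
  {h' : A2} {c' : A3} {d' : A4} {x' : E3} {q' : ℝ}

theorem d_tau (hH : ∀ i j, Dv k x (fun y => H y i j) (h' i j))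
    (hC : ∀ i j m, Dv k x (fun y => C y i j m) (c' i j m)) (a : Fin 3) :
    Dv k x (fun y => tauA (H y) (C y) a) (tauD (H x) (C x) h' c' a) := by
  unfold tauA tauD
  exact Dv.sum fun i => Dv.sum fun j => (hH i j).mul (hC i j a)

theorem d_th (hH : ∀ i j, Dv k x (fun y => H y i j) (h' i j))
    (hC : ∀ i j m, Dv k x (fun y => C y i j m) (c' i j m))
    (hD : ∀ i j m n, Dv k x (fun y => D y i j m n) (d' i j m n)) (a b : Fin 3) :
    Dv k x (fun y => thA (H y) (C y) (D y) a b) (thD (H x) (C x) (D x) h' c' d' a b) := by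
  unfold thA thD
  refine Dv.sub (Dv.sum fun i => Dv.sum fun j => (hH i j).mul (hD i j a b))
    (Dv.sum fun i => Dv.sum fun j => Dv.sum fun p => Dv.sum fun q => ?_)
  exact ((((hH i p).mul (hH j q)).mul (hC p q b)).mul (hC i j a)).congr (by ring)

theorem d_ht (hH : ∀ i j, Dv k x (fun y => H y i j) (h' i j))
    (hC : ∀ i j m, Dv k x (fun y => C y i j m) (c' i j m)) (a : Fin 3) :
    Dv k x (fun y => htA (H y) (C y) a) (htD (H x) (C x) h' c' a) := by
  unfold htA htD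
  exact Dv.sum fun b => (hH a b).mul (d_tau hH hC b)

theorem d_n (hH : ∀ i j, Dv k x (fun y => H y i j) (h' i j))
    (hC : ∀ i j m, Dv k x (fun y => C y i j m) (c' i j m)) :
    Dv k x (fun y => nA (H y) (C y)) (nD (H x) (C x) h' c') := by
  unfold nA nD
  exact Dv.sum fun a => (d_tau hH hC a).mul (d_ht hH hC a)

theorem d_hth (hH : ∀ i j, Dv k x (fun y => H y i j) (h' i j))
    (hC : ∀ i j m, Dv k x (fun y => C y i j m) (c' i j m))
    (hD : ∀ i j m n, Dv k x (fun y => D y i j m n) (d' i j m n)) (a b : Fin 3) :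
    Dv k x (fun y => hthA (H y) (C y) (D y) a b) (hthD (H x) (C x) (D x) h' c' d' a b) := by
  unfold hthA hthD
  refine Dv.sum fun p => Dv.sum fun q => ?_
  exact (((hH a p).mul (d_th hH hC hD p q)).mul (hH q b)).congr (by ring)

theorem d_u (hH : ∀ i j, Dv k x (fun y => H y i j) (h' i j))
    (hC : ∀ i j m, Dv k x (fun y => C y i j m) (c' i j m))
    (hD : ∀ i j m n, Dv k x (fun y => D y i j m n) (d' i j m n)) (a : Fin 3) :
    Dv k x (fun y => uA (H y) (C y) (D y) a) (uD (H x) (C x) (D x) h' c' d' a) := by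
  unfold uA uD
  exact Dv.sub (Dv.sum fun b => (d_th hH hC hD a b).mul (d_ht hH hC b))
    (Dv.sum fun b => Dv.sum fun m => (hC a b m).mul (d_hth hH hC hD b m))

theorem d_v (hH : ∀ i j, Dv k x (fun y => H y i j) (h' i j))
    (hC : ∀ i j m, Dv k x (fun y => C y i j m) (c' i j m))
    (hD : ∀ i j m n, Dv k x (fun y => D y i j m n) (d' i j m n)) (a : Fin 3) :
    Dv k x (fun y => vA (H y) (C y) (D y) a) (vD (H x) (C x) (D x) h' c' d' a) := by
  unfold vA vD
  exact Dv.sum fun b => (hH a b).mul (d_u hH hC hD b)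

theorem d_qu (hH : ∀ i j, Dv k x (fun y => H y i j) (h' i j))
    (hC : ∀ i j m, Dv k x (fun y => C y i j m) (c' i j m))
    (hD : ∀ i j m n, Dv k x (fun y => D y i j m n) (d' i j m n)) :
    Dv k x (fun y => quA (H y) (C y) (D y)) (quD (H x) (C x) (D x) h' c' d') := by
  unfold quA quD
  exact Dv.sum fun a => Dv.sum fun b =>
    (hH a b).mul ((d_u hH hC hD a).mul (d_u hH hC hD b))

theorem d_Vt (hH : ∀ i j, Dv k x (fun y => H y i j) (h' i j))
    (hC : ∀ i j m, Dv k x (fun y => C y i j m) (c' i j m))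
    (hD : ∀ i j m n, Dv k x (fun y => D y i j m n) (d' i j m n))
    (hX : ∀ a, Dv k x (fun y => X y a) (x' a)) (hq : Dv k x q q')
    (hn : nA (H x) (C x) ≠ 0) (hq0 : q x ≠ 0) (a : Fin 3) :
    Dv k x (fun y => VtA (H y) (C y) (D y) (X y) (q y) a)
      (VtD (H x) (C x) (D x) (X x) (q x) h' c' d' x' q' a) := by
  unfold VtA VtD
  exact ((d_v hH hC hD a).div (d_n hH hC) hn).add ((hX a).div hq hq0)

theorem d_s (hH : ∀ i j, Dv k x (fun y => H y i j) (h' i j))
    (hC : ∀ i j m, Dv k x (fun y => C y i j m) (c' i j m))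
    (hD : ∀ i j m n, Dv k x (fun y => D y i j m n) (d' i j m n)) (hq : Dv k x q q')
    (hn : nA (H x) (C x) ≠ 0) (hq0 : q x ≠ 0) :
    Dv k x (fun y => sA (H y) (C y) (D y) (q y))
      (sD (H x) (C x) (D x) (q x) h' c' d' q') := by
  unfold sA sD
  have h1 : Dv k x (fun y => nA (H y) (C y) ^ 2)
      (2 * nA (H x) (C x) * nD (H x) (C x) h' c') := by
    have := (d_n hH hC).mul (d_n hH hC)
    simp only [← sq] at this
    exact this.congr (by ring)
  have h2 := (d_qu hH hC hD).div h1 (pow_ne_zero 2 hn)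
  have h3 := (Dv.const (k := k) (x := x) 1).div hq hq0
  have h4 : Dv k x (fun y => quA (H y) (C y) (D y) / nA (H y) (C y) ^ 2 - 1 / q y)
      ((quD (H x) (C x) (D x) h' c' d' * nA (H x) (C x) ^ 2 -
        quA (H x) (C x) (D x) * (2 * nA (H x) (C x) * nD (H x) (C x) h' c')) /
          nA (H x) (C x) ^ 4 + q' / q x ^ 2) := by
    refine (h2.sub h3).congr ?_
    have e1 : (nA (H x) (C x) ^ 2) ^ 2 = nA (H x) (C x) ^ 4 := by ring
    rw [e1]
    ring
  exact h4.div (d_n hH hC) hn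

end levels

theorem taskDer : TaskDer := by
  intro hB F hF x hx hN k
  obtain ⟨-, -, -, bcc, bdd, -, bhh, bsym⟩ := hB F hF
  have hopen : IsOpen {y : E3 | y ≠ 0} := isOpen_ne
  have hmem : {y : E3 | y ≠ 0} ∈ nhds x := hopen.mem_nhds hx
  have diff : ∀ f : E3 → ℝ, ContDiffOn ℝ ((⊤ : ℕ∞) : WithTop ℕ∞) f {y | y ≠ 0} →
      DifferentiableAt ℝ f x := fun f hf =>
    (hf.contDiffAt hmem).differentiableAt (by simp)
  obtain ⟨-, -, -, -, -, -, -, -, -, -, -, bpd⟩ := bsym x hx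
  have hH : ∀ i j, Dv k x (fun y => hh F y i j)
      (-∑ p, ∑ q, hh F x i p * cc F x p q k * hh F x q j) := fun i j =>
    ⟨diff _ (bhh i j), bpd i j k⟩
  have hC : ∀ i j m, Dv k x (fun y => cc F y i j m) (dd F x i j m k) := fun i j m =>
    ⟨diff _ (bcc i j m), rfl⟩
  have hD : ∀ i j m n, Dv k x (fun y => dd F y i j m n) (ee F x i j m n k) := fun i j m n =>
    ⟨diff _ (bdd i j m n), rfl⟩
  have hX : ∀ a, Dv k x (fun y : E3 => y a) ((Pi.single k 1 : E3) a) := by
    intro a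
    refine ⟨differentiableAt_apply a x, ?_⟩
    unfold pd
    have : fderiv ℝ (fun y : E3 => y a) x = ContinuousLinearMap.proj a :=
      (ContinuousLinearMap.proj (R := ℝ) (φ := fun _ : Fin 3 => ℝ) a).fderiv
    rw [this]
    rfl
  have hq : Dv k x (fun y => F y ^ 2) (pd k (fun y => F y ^ 2) x) :=
    ⟨(diff _ hF.smooth).pow 2, rfl⟩
  have hq0 : F x ^ 2 ≠ 0 := pow_ne_zero 2 (hF.pos x hx).ne'
  refine ⟨fun a => ?_, ?_⟩
  · exact (d_Vt (X := fun y => y) hH hC hD hX hq hN hq0 a).2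
  · exact (d_s hH hC hD hq hN hq0).2

end Pool.Agent.H935R3.LW.Der
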