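import Pool.Agent.H935R3.LW.Stmts

set_option autoImplicit false
open Matrix

namespace Pool.Agent.H935R3.LW.EndT

open Pool.Agent.H935R3.LW

open scoped MatrixOrder in
lemma fac (h : Matrix (Fin 3) (Fin 3) ℝ) (hp : h.PosDef) :
    ∃ B : Matrix (Fin 3) (Fin 3) ℝ, h = Bᴴ * B := by
  obtain ⟨B, hB⟩ := CStarAlgebra.nonneg_iff_eq_star_mul_self.mp hp.posSemidef.nonneg
  exact ⟨B, hB⟩

lemma key (h : Matrix (Fin 3) (Fin 3) ℝ) (hp : h.PosDef) (M : Matrix (Fin 3) (Fin 3) ℝ)
    (h0 : (h * M * h * Mᵀ).trace = 0) : M = 0 := by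
  obtain ⟨B, hB⟩ := fac h hp
  have hBt : Bᴴ = Bᵀ := by
    ext i j; simp
  rw [hBt] at hB
  have hN : (B * M * Bᵀ) = 0 := by
    have h1 : ((B * M * Bᵀ) * (B * M * Bᵀ)ᴴ).trace = 0 := by
      have e : (B * M * Bᵀ)ᴴ = B * Mᵀ * Bᵀ := by
        have : (B * M * Bᵀ)ᴴ = (B * M * Bᵀ)ᵀ := by ext i j; simp
        rw [this, Matrix.transpose_mul, Matrix.transpose_mul, Matrix.transpose_transpose]
        rw [Matrix.mul_assoc]
      rw [e]
      have e2 : B * M * Bᵀ * (B * Mᵀ * Bᵀ) = (B * M * (Bᵀ * B) * Mᵀ) * Bᵀ := by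
        simp only [Matrix.mul_assoc]
      rw [e2, Matrix.trace_mul_comm]
      have e3 : Bᵀ * (B * M * (Bᵀ * B) * Mᵀ) = (Bᵀ * B) * M * (Bᵀ * B) * Mᵀ := by
        simp only [Matrix.mul_assoc]
      rw [e3, ← hB]
      exact h0
    exact Matrix.trace_mul_conjTranspose_self_eq_zero_iff.mp h1
  have h2 : h * M * h = 0 := by
    have e : h * M * h = Bᵀ * (B * M * Bᵀ) * B := by
      rw [hB]
      simp only [Matrix.mul_assoc]
    rw [e, hN]
    simp
  have hu : IsUnit h.det := (Matrix.isUnit_iff_isUnit_det h).mp hp.isUnit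
  have h3 : M = h⁻¹ * (h * M * h) * h⁻¹ := by
    calc M = (h⁻¹ * h) * M * (h * h⁻¹) := by
          rw [Matrix.nonsing_inv_mul _ hu, Matrix.mul_nonsing_inv _ hu]
          simp
      _ = h⁻¹ * (h * M * h) * h⁻¹ := by simp only [Matrix.mul_assoc]
  rw [h3, h2]
  simp

lemma c_zero (g : Matrix (Fin 3) (Fin 3) ℝ) (hg : g.PosDef) (c : A3)
    (hc : ∀ i j k, c i j k = c j i k)
    (hflat : ∀ i j k l, ∑ p, ∑ q, g⁻¹ p q * (c i k p * c j l q - c i l p * c j k q) = 0)
    (hn : nA (fun i j => g⁻¹ i j) c = 0) : ∀ i j k, c i j k = 0 := by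
  have hi : (g⁻¹).PosDef := hg.inv
  -- tau = 0
  have htau : tauA (fun i j => g⁻¹ i j) c = 0 := by
    by_contra hne
    have h1 := hi.dotProduct_mulVec_pos hne
    have e : star (tauA (fun i j => g⁻¹ i j) c) ⬝ᵥ (g⁻¹ *ᵥ tauA (fun i j => g⁻¹ i j) c) =
        nA (fun i j => g⁻¹ i j) c := by
      simp [nA, htA, dotProduct, Matrix.mulVec]
    rw [e, hn] at h1
    exact lt_irrefl _ h1
  intro i
  have hM := key g⁻¹ hi (Matrix.of fun l p => c i l p) (by
    have e : (g⁻¹ * (Matrix.of fun l p => c i l p) * g⁻¹ * (Matrix.of fun l p => c i l p)ᵀ).trace =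
        ∑ j, ∑ l, g⁻¹ j l * ∑ p, ∑ q, g⁻¹ p q * (c i l p * c j i q) := by
      simp only [Matrix.trace, Matrix.diag, Matrix.mul_apply, Matrix.transpose_apply,
        Matrix.of_apply, Fin.sum_univ_three, hc _ i _]
      ring
    rw [e]
    have e2 : ∀ j l, ∑ p, ∑ q, g⁻¹ p q * (c i l p * c j i q) =
        ∑ p, ∑ q, g⁻¹ p q * (c i i p * c j l q) := by
      intro j l
      have h1 := hflat i j i l
      have h2 : ∑ p, ∑ q, g⁻¹ p q * (c i i p * c j l q - c i l p * c j i q) =
          (∑ p, ∑ q, g⁻¹ p q * (c i i p * c j l q)) -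
            ∑ p, ∑ q, g⁻¹ p q * (c i l p * c j i q) := by
        simp only [mul_sub, Finset.sum_sub_distrib]
      rw [h2] at h1
      linarith
    simp only [e2]
    have e3 : ∑ j, ∑ l, g⁻¹ j l * ∑ p, ∑ q, g⁻¹ p q * (c i i p * c j l q) =
        ∑ p, ∑ q, g⁻¹ p q * c i i p * tauA (fun i j => g⁻¹ i j) c q := by
      simp only [tauA, Fin.sum_univ_three]
      ring
    rw [e3, htau]
    simp)
  intro j k
  have := congrFun (congrFun hM j) k
  simpa using this

lemma smul_ne {x : E3} (hx : x ≠ 0) {t : ℝ} (ht : 0 < t) : t • x ≠ 0 :=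
  smul_ne_zero ht.ne' hx

lemma pd_scale {f : E3 → ℝ} {t : ℝ} {x : E3} (i : Fin 3) (hf : DifferentiableAt ℝ f (t • x)) :
    pd i (fun y => f (t • y)) x = t * pd i f (t • x) := by
  unfold pd
  have h1 : HasFDerivAt (fun y : E3 => t • y) (t • ContinuousLinearMap.id ℝ E3) x :=
    (hasFDerivAt_id x).const_smul t
  have h2 : HasFDerivAt (fun y => f (t • y)) ((fderiv ℝ f (t • x)).comp
      (t • ContinuousLinearMap.id ℝ E3)) x := hf.hasFDerivAt.comp x h1
  rw [h2.fderiv]
  simp

lemma open_ne : IsOpen {x : E3 | x ≠ 0} := isOpen_ne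

lemma ev_ne {x : E3} (hx : x ≠ 0) : ∀ᶠ y in nhds x, y ≠ 0 := open_ne.mem_nhds hx

theorem taskEnd : TaskEnd := by
  intro hB hH F hF hN
  obtain ⟨s0, s1, s2, s3, -, -, -, sym⟩ := hB F hF
  have top1 : (1 : WithTop ℕ∞) ≤ ((⊤ : ℕ∞) : WithTop ℕ∞) := by
    exact_mod_cast le_top
  have hd : ∀ {f : E3 → ℝ}, ContDiffOn ℝ ((⊤ : ℕ∞) : WithTop ℕ∞) f {x | x ≠ 0} → ∀ x, x ≠ 0 →
      DifferentiableAt ℝ f x := by
    intro f hf x hx
    have h1 := hf.differentiableOn (by simp)
    exact (h1 x hx).differentiableAt (open_ne.mem_nhds hx)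
  -- homogeneity
  have hphi : ∀ t : ℝ, 0 < t → ∀ y, phi F (t • y) = t ^ 2 * phi F y := by
    intro t ht y
    unfold phi
    rw [hF.hom t y ht.le]
    ring
  have hpd : ∀ t : ℝ, 0 < t → ∀ i, ∀ y, y ≠ 0 → pd i (phi F) (t • y) = t * pd i (phi F) y := by
    intro t ht i y hy
    have h1 := pd_scale (t := t) (x := y) i (hd s0 _ (smul_ne hy ht))
    have h2 : pd i (fun z => phi F (t • z)) y = t ^ 2 * pd i (phi F) y := by
      have : (fun z => phi F (t • z)) = fun z => t ^ 2 * phi F z := funext (hphi t ht)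
      rw [this]
      unfold pd
      rw [fderiv_const_mul (hd s0 y hy)]
      simp
    rw [h1] at h2
    have h3 : t * (pd i (phi F) (t • y)) = t * (t * pd i (phi F) y) := by rw [h2]; ring
    exact mul_left_cancel₀ ht.ne' h3
  have hG : ∀ t : ℝ, 0 < t → ∀ i j, ∀ y, y ≠ 0 → G F (t • y) i j = G F y i j := by
    intro t ht i j y hy
    have h1 := pd_scale (t := t) (x := y) j (hd (s1 i) _ (smul_ne hy ht))
    have h2 : pd j (fun z => pd i (phi F) (t • z)) y = t * pd j (pd i (phi F)) y := by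
      have hev : (fun z => pd i (phi F) (t • z)) =ᶠ[nhds y] fun z => t * pd i (phi F) z := by
        filter_upwards [ev_ne hy] with z hz using hpd t ht i z hz
      unfold pd at hev ⊢
      rw [hev.fderiv_eq]
      have hdi := hd (s1 i) y hy
      unfold pd at hdi
      rw [fderiv_const_mul hdi]
      simp
    rw [h1] at h2
    have h3 := mul_left_cancel₀ ht.ne' h2
    simpa [G] using h3
  have hccs : ∀ t : ℝ, 0 < t → ∀ i j k, ∀ y, y ≠ 0 → cc F y i j k = t * cc F (t • y) i j k := by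
    intro t ht i j k y hy
    have h1 := pd_scale (t := t) (x := y) k (hd (s2 i j) _ (smul_ne hy ht))
    have hev : (fun z => G F (t • z) i j) =ᶠ[nhds y] fun z => G F z i j := by
      filter_upwards [ev_ne hy] with z hz using hG t ht i j z hz
    have h2 : pd k (fun z => G F (t • z) i j) y = pd k (fun z => G F z i j) y := by
      unfold pd
      rw [hev.fderiv_eq]
    show pd k (fun z => G F z i j) y = t * pd k (fun z => G F z i j) (t • y)
    rw [← h2, ← h1]
  -- cc = 0
  have hcc : ∀ x, x ≠ 0 → ∀ i j k, cc F x i j k = 0 := by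
    intro x hx i j k
    have hFx := hF.pos x hx
    have ht : 0 < 2 / F x := by positivity
    have hy : (2 / F x) • x ≠ 0 := smul_ne hx ht
    have hval : phi F ((2 / F x) • x) = 2 := by
      rw [hphi _ ht]
      unfold phi
      field_simp
    have hz : cc F ((2 / F x) • x) i j k = 0 := by
      refine c_zero (G F ((2 / F x) • x)) (hF.posdef _ hy) (cc F ((2 / F x) • x)) ?_ ?_ ?_ i j k
      · exact (sym _ hy).2.2.1
      · exact hF.flat _ hy
      · exact hN _ (by rw [hval]; norm_num) (by rw [hval]; norm_num)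
    rw [hccs _ ht i j k x hx, hz, mul_zero]
  -- G is constant
  have hconn : IsPreconnected {x : E3 | x ≠ 0} := by
    have h1 : (1 : Cardinal) < Module.rank ℝ E3 := by
      rw [rank_fun', Fintype.card_fin]
      norm_num
    exact (isConnected_compl_singleton_of_one_lt_rank h1 (0 : E3)).isPreconnected
  have hconst : ∀ i j, ∀ x y : E3, x ≠ 0 → y ≠ 0 → G F x i j = G F y i j := by
    intro i j x y hx hy
    refine IsOpen.is_const_of_fderiv_eq_zero (𝕜 := ℝ) (f := fun x => G F x i j) open_ne hconn ?_ ?_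
      hx hy
    · exact (s2 i j).differentiableOn (by simp)
    · intro z hz
      apply ContinuousLinearMap.coe_injective
      apply (Pi.basisFun ℝ (Fin 3)).ext
      intro k
      have := hcc z hz i j k
      simpa [cc, pd] using this
  let x0 : E3 := Pi.single 0 1
  have hx0 : x0 ≠ 0 := by
    intro h
    have := congrFun h 0
    simp [x0] at this
  refine ⟨G F x0, hF.posdef x0 hx0, ?_⟩
  intro x
  by_cases hx : x = 0
  · subst hx
    have : F 0 = 0 := by
      have := hF.hom 0 0 le_rfl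
      simpa using this
    rw [this]
    simp
  · obtain ⟨e1, e2, -⟩ := hH hB F hF x hx
    have e3 : x ⬝ᵥ G F x0 *ᵥ x = F x ^ 2 := by
      rw [← e2]
      simp only [dotProduct, Matrix.mulVec]
      refine Finset.sum_congr rfl fun i _ => ?_
      rw [← e1 i, mul_comm]
      congr 1
      refine Finset.sum_congr rfl fun j _ => ?_
      rw [hconst i j x0 x hx0 hx]
    rw [e3, Real.sqrt_sq (hF.pos x hx).le]

end Pool.Agent.H935R3.LW.EndT

namespace Pool.Agent.H935R3.LW

theorem taskEnd : TaskEnd := EndT.taskEnd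

end Pool.Agent.H935R3.LW
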