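import Pool.Agent.H935R3.LW.Stmts

/-! Task Hom of project H935-LW (written by helper885). -/

set_option autoImplicit false
open Matrix

namespace Pool.Agent.H935R3.LW

namespace HomW

/-- positively homogeneous of degree `n` away from the origin -/
def Hm (n : ℤ) (f : E3 → ℝ) : Prop := ∀ t : ℝ, 0 < t → ∀ x : E3, x ≠ 0 → f (t • x) = t ^ n * f x

theorem isOpen_ne0 : IsOpen {x : E3 | x ≠ 0} := _root_.isOpen_ne

theorem diffAt {f : E3 → ℝ} (h : ContDiffOn ℝ ((⊤ : ℕ∞) : WithTop ℕ∞) f {x | x ≠ 0}) {x : E3}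
    (hx : x ≠ 0) : DifferentiableAt ℝ f x :=
  (h.contDiffAt (isOpen_ne0.mem_nhds hx)).differentiableAt (by simp)

theorem hm_pd {n : ℤ} {f : E3 → ℝ} (hf : Hm n f) (hd : ∀ x : E3, x ≠ 0 → DifferentiableAt ℝ f x)
    (i : Fin 3) : Hm (n - 1) (pd i f) := by
  intro t ht x hx
  have htx : t • x ≠ 0 := smul_ne_zero ht.ne' hx
  have h1 : HasFDerivAt (fun y : E3 => f (t • y))
      ((fderiv ℝ f (t • x)).comp (t • ContinuousLinearMap.id ℝ E3)) x := by
    have h2 : HasFDerivAt (fun y : E3 => t • y) (t • ContinuousLinearMap.id ℝ E3) x :=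
      (hasFDerivAt_id x).const_smul t
    exact (hd _ htx).hasFDerivAt.comp x h2
  have h3 : HasFDerivAt (fun y : E3 => f (t • y)) (t ^ n • fderiv ℝ f x) x := by
    have h4 : HasFDerivAt (fun y : E3 => t ^ n * f y) (t ^ n • fderiv ℝ f x) x :=
      (hd x hx).hasFDerivAt.const_mul (t ^ n)
    refine h4.congr_of_eventuallyEq ?_
    filter_upwards [isOpen_ne0.mem_nhds hx] with y hy
    exact hf t ht y hy
  have h5 := congrArg (fun L : E3 →L[ℝ] ℝ => L (Pi.single i 1)) (h1.unique h3)
  simp only [ContinuousLinearMap.comp_apply, _root_.smul_apply,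
    ContinuousLinearMap.id_apply, map_smul, smul_eq_mul] at h5
  show fderiv ℝ f (t • x) (Pi.single i 1) = t ^ (n - 1) * fderiv ℝ f x (Pi.single i 1)
  rw [zpow_sub_one₀ ht.ne']
  field_simp
  linarith

theorem euler {n : ℤ} {f : E3 → ℝ} (hf : Hm n f) {x : E3} (hx : x ≠ 0)
    (hd : DifferentiableAt ℝ f x) : ∑ i, pd i f x * x i = n * f x := by
  have h1 : HasDerivAt (fun t : ℝ => f (t • x)) (fderiv ℝ f x x) 1 := by
    have h2 : HasDerivAt (fun t : ℝ => t • x) x 1 := by
      simpa using (hasDerivAt_id (1 : ℝ)).smul_const x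
    have h3 : HasFDerivAt f (fderiv ℝ f x) ((1 : ℝ) • x) := by
      rw [one_smul]; exact hd.hasFDerivAt
    exact h3.comp_hasDerivAt (1 : ℝ) h2
  have h4 : HasDerivAt (fun t : ℝ => f (t • x)) (n * f x) 1 := by
    have h5 : HasDerivAt (fun t : ℝ => t ^ n * f x) ((n * (1 : ℝ) ^ (n - 1)) * f x) 1 :=
      (hasDerivAt_zpow n (1 : ℝ) (Or.inl one_ne_zero)).mul_const (f x)
    rw [_root_.one_zpow, mul_one] at h5
    refine h5.congr_of_eventuallyEq ?_
    filter_upwards [lt_mem_nhds (zero_lt_one (α := ℝ))] with t ht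
    exact hf t ht x hx
  rw [h4.unique h1]
  have h6 : x = ∑ i, x i • (Pi.single i (1 : ℝ) : E3) := by
    funext j
    simp [Finset.sum_apply, Pi.single_apply]
  have h7 : fderiv ℝ f x x = ∑ i, fderiv ℝ f x (x i • (Pi.single i (1 : ℝ) : E3)) := by
    rw [← map_sum, ← h6]
  rw [h7]
  refine Finset.sum_congr rfl fun i _ => ?_
  rw [map_smul, smul_eq_mul, mul_comm]
  rfl

end HomW

open HomW in
theorem taskHom : TaskHom := by
  intro hB F hF x hx
  obtain ⟨sphi, spd, sG, sc, sd, -, -, -⟩ := hB F hF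
  have hphi : Hm 2 (phi F) := by
    intro t ht x hx
    unfold phi
    rw [hF.hom t x ht.le]
    norm_cast
    ring
  have h1 : ∀ i, Hm 1 (pd i (phi F)) := fun i => hm_pd hphi (fun x hx => diffAt sphi hx) i
  have h2 : ∀ i j, Hm 0 (fun x => G F x i j) := fun i j =>
    hm_pd (h1 i) (fun x hx => diffAt (spd i) hx) j
  have h3 : ∀ i j k, Hm (-1) (fun x => cc F x i j k) := fun i j k =>
    hm_pd (h2 i j) (fun x hx => diffAt (sG i j) hx) k
  have h4 : ∀ i j k l, Hm (-2) (fun x => dd F x i j k l) := fun i j k l =>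
    hm_pd (h3 i j k) (fun x hx => diffAt (sc i j k) hx) l
  have hA : ∀ i, ∑ j, G F x i j * x j = pd i (phi F) x := by
    intro i
    have h := euler (h1 i) hx (diffAt (spd i) hx)
    rw [Int.cast_one, one_mul] at h
    exact h
  refine ⟨hA, ?_, ?_, ?_, ?_, ?_⟩
  · have h := euler hphi hx (diffAt sphi hx)
    rw [h]
    unfold phi
    push_cast
    ring
  · intro i j
    have h := euler (h2 i j) hx (diffAt (sG i j) hx)
    rw [Int.cast_zero, zero_mul] at h
    exact h
  · intro i j k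
    have h := euler (h3 i j k) hx (diffAt (sc i j k) hx)
    rw [Int.cast_neg, Int.cast_one, neg_one_mul] at h
    exact h
  · intro i j k l
    have h := euler (h4 i j k l) hx (diffAt (sd i j k l) hx)
    rw [Int.cast_neg, neg_mul] at h
    exact_mod_cast h
  · intro k
    rw [hA k]
    have h5 : (fun y => F y ^ 2) = fun y => 2 * phi F y := by
      funext y
      unfold phi
      ring
    rw [h5]
    unfold pd
    rw [fderiv_const_mul (diffAt sphi hx)]
    rfl

end Pool.Agent.H935R3.LW
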