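import Pool.Agent.H935R3.LW.Stmts

/-! # TaskNat: naturality of the array level formulas (helper929). -/

set_option autoImplicit false
open Matrix

namespace Pool.Agent.H935R3.LW

namespace Nat929

abbrev M3 := Matrix (Fin 3) (Fin 3) ℝ

theorem tr2 (K B : M3) : (∑ i, ∑ j, K i j * B i j) = trace (Kᵀ * B) := by
  simp only [Matrix.trace, Matrix.diag, Matrix.mul_apply, Matrix.transpose_apply,
    Fin.sum_univ_three]
  ring

theorem tr4 (K A B : M3) :
    (∑ i, ∑ j, ∑ p, ∑ q, K i p * K j q * B p q * A i j) = trace (Aᵀ * (K * B * Kᵀ)) := by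
  simp only [Matrix.trace, Matrix.diag, Matrix.mul_apply, Matrix.transpose_apply,
    Fin.sum_univ_three]
  ring

def Cm (c : A3) (k : Fin 3) : M3 := Matrix.of fun i j => c i j k
def Dm (d : A4) (k l : Fin 3) : M3 := Matrix.of fun i j => d i j k l

theorem tau_eq (h : A2) (c : A3) (a : Fin 3) :
    tauA h c a = trace ((Matrix.of h)ᵀ * Cm c a) := by
  rw [← tr2]; rfl

theorem th_eq (h : A2) (c : A3) (d : A4) (a b : Fin 3) :
    thA h c d a b = trace ((Matrix.of h)ᵀ * Dm d a b)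
      - trace ((Cm c a)ᵀ * (Matrix.of h * Cm c b * (Matrix.of h)ᵀ)) := by
  rw [← tr2, ← tr4]; rfl

theorem H_eq (P : M3) (h h₁ : A2) (hh : ∀ a b, h a b = ∑ i, ∑ j, P a i * P b j * h₁ i j) :
    (Matrix.of h : M3) = P * Matrix.of h₁ * Pᵀ := by
  ext a b
  simp only [Matrix.mul_apply, Matrix.transpose_apply, Matrix.of_apply, hh, Fin.sum_univ_three]
  ring

theorem C_eq (P : M3) (c c₁ : A3)
    (hc : ∀ i j k, c₁ i j k = ∑ a, ∑ b, ∑ m, P a i * P b j * P m k * c a b m) (k : Fin 3) :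
    Cm c₁ k = Pᵀ * (P 0 k • Cm c 0 + P 1 k • Cm c 1 + P 2 k • Cm c 2) * P := by
  ext i j
  simp only [Cm, Matrix.mul_apply, Matrix.transpose_apply, Matrix.of_apply, Matrix.add_apply,
    Matrix.smul_apply, smul_eq_mul, hc, Fin.sum_univ_three]
  ring

theorem D_eq (P : M3) (d d₁ : A4)
    (hd : ∀ i j k l, d₁ i j k l = ∑ a, ∑ b, ∑ m, ∑ n, P a i * P b j * P m k * P n l * d a b m n)
    (k l : Fin 3) :
    Dm d₁ k l = Pᵀ * (∑ m, ∑ n, (P m k * P n l) • Dm d m n) * P := by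
  ext i j
  simp only [Dm, Matrix.mul_apply, Matrix.transpose_apply, Matrix.of_apply, Matrix.add_apply,
    Matrix.smul_apply, smul_eq_mul, hd, Fin.sum_univ_three]
  ring

theorem tr_conj (P K X : M3) :
    trace (Kᵀ * (Pᵀ * X * P)) = trace ((P * K * Pᵀ)ᵀ * X) := by
  rw [← Matrix.mul_assoc, Matrix.trace_mul_comm]
  simp only [Matrix.transpose_mul, Matrix.transpose_transpose, Matrix.mul_assoc]

theorem tr_conj4 (P K X Y : M3) :
    trace ((Pᵀ * X * P)ᵀ * (K * (Pᵀ * Y * P) * Kᵀ)) =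
      trace (Xᵀ * ((P * K * Pᵀ) * Y * (P * K * Pᵀ)ᵀ)) := by
  simp only [Matrix.transpose_mul, Matrix.transpose_transpose, Matrix.mul_assoc]
  rw [Matrix.trace_mul_comm]
  simp only [Matrix.mul_assoc]

section
variable (P : M3) (h h₁ : A2) (c c₁ : A3) (d d₁ : A4)
  (hh : ∀ a b, h a b = ∑ i, ∑ j, P a i * P b j * h₁ i j)
  (hc : ∀ i j k, c₁ i j k = ∑ a, ∑ b, ∑ m, P a i * P b j * P m k * c a b m)
  (hd : ∀ i j k l, d₁ i j k l = ∑ a, ∑ b, ∑ m, ∑ n, P a i * P b j * P m k * P n l * d a b m n)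
include hh hc

theorem tau_nat (a : Fin 3) : tauA h₁ c₁ a = ∑ i, P i a * tauA h c i := by
  simp only [tau_eq]
  rw [C_eq P c c₁ hc a, tr_conj, ← H_eq P h h₁ hh, Fin.sum_univ_three]
  simp only [Matrix.mul_add, Matrix.mul_smul, Matrix.trace_add, Matrix.trace_smul, smul_eq_mul]

theorem ht_nat (a : Fin 3) : htA h c a = ∑ i, P a i * htA h₁ c₁ i := by
  simp only [htA, tau_nat P h h₁ c c₁ hh hc, hh, Fin.sum_univ_three]
  ring

theorem n_nat : nA h₁ c₁ = nA h c := by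
  simp only [nA, tau_nat P h h₁ c c₁ hh hc]
  simp only [ht_nat P h h₁ c c₁ hh hc, Fin.sum_univ_three]
  ring

include hd
theorem th_nat (a b : Fin 3) : thA h₁ c₁ d₁ a b = ∑ i, ∑ j, P i a * P j b * thA h c d i j := by
  simp only [th_eq]
  rw [C_eq P c c₁ hc a, C_eq P c c₁ hc b, D_eq P d d₁ hd a b, tr_conj, tr_conj4,
    ← H_eq P h h₁ hh]
  simp only [Fin.sum_univ_three]
  simp only [Matrix.mul_add, Matrix.add_mul, Matrix.mul_smul, Matrix.smul_mul, Matrix.trace_add,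
    Matrix.trace_smul, smul_eq_mul, Matrix.transpose_add, Matrix.transpose_smul]
  ring

theorem hth_nat (a b : Fin 3) :
    hthA h c d a b = ∑ i, ∑ j, P a i * P b j * hthA h₁ c₁ d₁ i j := by
  have e1 : ∀ (k : A2) (cc : A3) (dd : A4), (Matrix.of (hthA k cc dd) : M3) =
      Matrix.of k * Matrix.of (thA k cc dd) * Matrix.of k := by
    intro k cc dd
    ext i j
    simp only [hthA, Matrix.mul_apply, Matrix.of_apply, Fin.sum_univ_three]
    ring
  have e2 : (Matrix.of (thA h₁ c₁ d₁) : M3) = Pᵀ * Matrix.of (thA h c d) * P := by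
    ext i j
    simp only [Matrix.mul_apply, Matrix.transpose_apply, Matrix.of_apply,
      th_nat P h h₁ c c₁ d d₁ hh hc hd, Fin.sum_univ_three]
    ring
  have e3 : (Matrix.of (hthA h c d) : M3) = P * Matrix.of (hthA h₁ c₁ d₁) * Pᵀ := by
    rw [e1, e1, e2, H_eq P h h₁ hh]
    simp only [Matrix.mul_assoc]
  have e4 := congrFun (congrFun e3 a) b
  simp only [Matrix.mul_apply, Matrix.transpose_apply, Matrix.of_apply,
    Fin.sum_univ_three] at e4
  rw [e4]
  simp only [Fin.sum_univ_three]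
  ring

theorem u_nat (a : Fin 3) : uA h₁ c₁ d₁ a = ∑ i, P i a * uA h c d i := by
  have e1 : (∑ b, thA h₁ c₁ d₁ a b * htA h₁ c₁ b)
      = ∑ i, P i a * ∑ b, thA h c d i b * htA h c b := by
    simp only [th_nat P h h₁ c c₁ d d₁ hh hc hd, ht_nat P h h₁ c c₁ hh hc, Fin.sum_univ_three]
    ring
  have e2 : (∑ b, ∑ k, c₁ a b k * hthA h₁ c₁ d₁ b k)
      = ∑ i, P i a * ∑ b, ∑ k, c i b k * hthA h c d b k := by
    simp only [hc, hth_nat P h h₁ c c₁ d d₁ hh hc hd, Fin.sum_univ_three]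
    ring
  simp only [uA]
  rw [e1, e2, ← Finset.sum_sub_distrib]
  exact Finset.sum_congr rfl fun i _ => by ring

theorem v_nat (a : Fin 3) : vA h c d a = ∑ i, P a i * vA h₁ c₁ d₁ i := by
  simp only [vA, u_nat P h h₁ c c₁ d d₁ hh hc hd, hh, Fin.sum_univ_three]
  ring

theorem qu_nat : quA h₁ c₁ d₁ = quA h c d := by
  simp only [quA, u_nat P h h₁ c c₁ d d₁ hh hc hd, hh, Fin.sum_univ_three]
  ring

end

end Nat929

open Nat929 in
theorem taskNat : TaskNat := by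
  intro P h h₁ c c₁ d d₁ x x₁ q _ hh hc hd hx
  refine ⟨tau_nat P h h₁ c c₁ hh hc, n_nat P h h₁ c c₁ hh hc, fun a => ?_, ?_⟩
  · simp only [VtA, n_nat P h h₁ c c₁ hh hc]
    rw [v_nat P h h₁ c c₁ d d₁ hh hc hd a, hx]
    simp only [Matrix.mulVec, dotProduct, Fin.sum_univ_three]
    ring
  · simp only [sA, n_nat P h h₁ c c₁ hh hc, qu_nat P h h₁ c c₁ d d₁ hh hc hd]

end Pool.Agent.H935R3.LW
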