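import Pool.Agent.H935R3.LW.Stmts

/-! # TaskSm of project H935-LW (MP_7dd29b_gt) -/

set_option autoImplicit false
open Matrix

namespace Pool.Agent.H935R3.LW

section smooth

variable {s : Set E3} {n : WithTop ℕ∞}

theorem Sm_tau {h : E3 → A2} {c : E3 → A3}
    (hh' : ∀ i j, ContDiffOn ℝ n (fun x => h x i j) s)
    (hc : ∀ i j k, ContDiffOn ℝ n (fun x => c x i j k) s) (a : Fin 3) :
    ContDiffOn ℝ n (fun x => tauA (h x) (c x) a) s := by
  unfold tauA
  exact ContDiffOn.sum fun i _ => ContDiffOn.sum fun j _ => (hh' i j).mul (hc i j a)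

theorem Sm_ht {h : E3 → A2} {c : E3 → A3}
    (hh' : ∀ i j, ContDiffOn ℝ n (fun x => h x i j) s)
    (hc : ∀ i j k, ContDiffOn ℝ n (fun x => c x i j k) s) (a : Fin 3) :
    ContDiffOn ℝ n (fun x => htA (h x) (c x) a) s := by
  unfold htA
  exact ContDiffOn.sum fun b _ => (hh' a b).mul (Sm_tau hh' hc b)

theorem Sm_n {h : E3 → A2} {c : E3 → A3}
    (hh' : ∀ i j, ContDiffOn ℝ n (fun x => h x i j) s)
    (hc : ∀ i j k, ContDiffOn ℝ n (fun x => c x i j k) s) :
    ContDiffOn ℝ n (fun x => nA (h x) (c x)) s := by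
  unfold nA
  exact ContDiffOn.sum fun a _ => (Sm_tau hh' hc a).mul (Sm_ht hh' hc a)

theorem Sm_th {h : E3 → A2} {c : E3 → A3} {d : E3 → A4}
    (hh' : ∀ i j, ContDiffOn ℝ n (fun x => h x i j) s)
    (hc : ∀ i j k, ContDiffOn ℝ n (fun x => c x i j k) s)
    (hd : ∀ i j k l, ContDiffOn ℝ n (fun x => d x i j k l) s) (a b : Fin 3) :
    ContDiffOn ℝ n (fun x => thA (h x) (c x) (d x) a b) s := by
  unfold thA
  refine ContDiffOn.sub ?_ ?_
  · exact ContDiffOn.sum fun i _ => ContDiffOn.sum fun j _ => (hh' i j).mul (hd i j a b)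
  · exact ContDiffOn.sum fun i _ => ContDiffOn.sum fun j _ => ContDiffOn.sum fun p _ =>
      ContDiffOn.sum fun q _ => (((hh' i p).mul (hh' j q)).mul (hc p q b)).mul (hc i j a)

theorem Sm_hth {h : E3 → A2} {c : E3 → A3} {d : E3 → A4}
    (hh' : ∀ i j, ContDiffOn ℝ n (fun x => h x i j) s)
    (hc : ∀ i j k, ContDiffOn ℝ n (fun x => c x i j k) s)
    (hd : ∀ i j k l, ContDiffOn ℝ n (fun x => d x i j k l) s) (a b : Fin 3) :
    ContDiffOn ℝ n (fun x => hthA (h x) (c x) (d x) a b) s := by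
  unfold hthA
  exact ContDiffOn.sum fun p _ => ContDiffOn.sum fun q _ =>
    ((hh' a p).mul (Sm_th hh' hc hd p q)).mul (hh' q b)

theorem Sm_u {h : E3 → A2} {c : E3 → A3} {d : E3 → A4}
    (hh' : ∀ i j, ContDiffOn ℝ n (fun x => h x i j) s)
    (hc : ∀ i j k, ContDiffOn ℝ n (fun x => c x i j k) s)
    (hd : ∀ i j k l, ContDiffOn ℝ n (fun x => d x i j k l) s) (a : Fin 3) :
    ContDiffOn ℝ n (fun x => uA (h x) (c x) (d x) a) s := by
  unfold uA
  refine ContDiffOn.sub ?_ ?_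
  · exact ContDiffOn.sum fun b _ => (Sm_th hh' hc hd a b).mul (Sm_ht hh' hc b)
  · exact ContDiffOn.sum fun b _ => ContDiffOn.sum fun k _ =>
      (hc a b k).mul (Sm_hth hh' hc hd b k)

theorem Sm_v {h : E3 → A2} {c : E3 → A3} {d : E3 → A4}
    (hh' : ∀ i j, ContDiffOn ℝ n (fun x => h x i j) s)
    (hc : ∀ i j k, ContDiffOn ℝ n (fun x => c x i j k) s)
    (hd : ∀ i j k l, ContDiffOn ℝ n (fun x => d x i j k l) s) (a : Fin 3) :
    ContDiffOn ℝ n (fun x => vA (h x) (c x) (d x) a) s := by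
  unfold vA
  exact ContDiffOn.sum fun b _ => (hh' a b).mul (Sm_u hh' hc hd b)

theorem Sm_qu {h : E3 → A2} {c : E3 → A3} {d : E3 → A4}
    (hh' : ∀ i j, ContDiffOn ℝ n (fun x => h x i j) s)
    (hc : ∀ i j k, ContDiffOn ℝ n (fun x => c x i j k) s)
    (hd : ∀ i j k l, ContDiffOn ℝ n (fun x => d x i j k l) s) :
    ContDiffOn ℝ n (fun x => quA (h x) (c x) (d x)) s := by
  unfold quA
  exact ContDiffOn.sum fun a _ => ContDiffOn.sum fun b _ =>
    (hh' a b).mul ((Sm_u hh' hc hd a).mul (Sm_u hh' hc hd b))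

end smooth

theorem Sm_open : IsOpen {x : E3 | x ≠ 0} := isOpen_ne

theorem Sm_mem {x : E3} (hx : x ≠ 0) : {x : E3 | x ≠ 0} ∈ nhds x := Sm_open.mem_nhds hx

theorem Sm_detexp (F : E3 → ℝ) (y : E3) : (G F y).det =
    G F y 0 0 * G F y 1 1 * G F y 2 2 - G F y 0 0 * G F y 1 2 * G F y 2 1
    - G F y 0 1 * G F y 1 0 * G F y 2 2 + G F y 0 1 * G F y 1 2 * G F y 2 0
    + G F y 0 2 * G F y 1 0 * G F y 2 1 - G F y 0 2 * G F y 1 1 * G F y 2 0 := by
  rw [Matrix.det_fin_three]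

theorem Sm_inv (M : Matrix (Fin 3) (Fin 3) ℝ) (hM : M.det ≠ 0) (i j : Fin 3) :
    M⁻¹ i j * M.det = M.adjugate i j := by
  rw [Matrix.inv_def, Matrix.smul_apply, Ring.inverse_eq_inv', smul_eq_mul]
  field_simp

theorem taskSm : TaskSm := by
  intro hB F hF
  obtain ⟨-, -, hG, hc, hd, -, hh', hsym⟩ := hB F hF
  have hN : ContDiffOn ℝ ((⊤ : ℕ∞) : WithTop ℕ∞) (NN F) {x | x ≠ 0} := Sm_n hh' hc
  have hdet : ContDiffOn ℝ ((⊤ : ℕ∞) : WithTop ℕ∞) (fun y => (G F y).det) {x | x ≠ 0} := by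
    simp only [Sm_detexp]
    exact ((((((hG 0 0).mul (hG 1 1)).mul (hG 2 2)).sub (((hG 0 0).mul (hG 1 2)).mul (hG 2 1))).sub
      (((hG 0 1).mul (hG 1 0)).mul (hG 2 2))).add (((hG 0 1).mul (hG 1 2)).mul (hG 2 0))).add
      (((hG 0 2).mul (hG 1 0)).mul (hG 2 1)) |>.sub (((hG 0 2).mul (hG 1 1)).mul (hG 2 0))
  have hdpos : ∀ x, x ≠ 0 → 0 < (G F x).det := fun x hx => (hF.posdef x hx).det_pos
  have hsub : {x : E3 | x ≠ 0 ∧ NN F x ≠ 0} ⊆ {x | x ≠ 0} := fun x hx => hx.1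
  have hF2 : ContDiffOn ℝ ((⊤ : ℕ∞) : WithTop ℕ∞) (fun x => F x ^ 2) {x | x ≠ 0} :=
    hF.smooth.pow 2
  refine ⟨hN, ?_, ?_, ?_, ?_, ?_⟩
  · intro a
    have h1 : ContDiffOn ℝ ((⊤ : ℕ∞) : WithTop ℕ∞)
        (fun x => vA (hh F x) (cc F x) (dd F x) a / NN F x + x a / F x ^ 2)
        {x | x ≠ 0 ∧ NN F x ≠ 0} := by
      refine ContDiffOn.add ?_ ?_
      · exact ((Sm_v hh' hc hd a).mono hsub).div (hN.mono hsub) fun x hx => hx.2
      · exact ((contDiff_apply ℝ ℝ a).contDiffOn).div (hF2.mono hsub)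
          fun x hx => pow_ne_zero 2 (hF.pos x hx.1).ne'
    exact h1
  · have h1 : ContDiffOn ℝ ((⊤ : ℕ∞) : WithTop ℕ∞)
        (fun x => (quA (hh F x) (cc F x) (dd F x) / NN F x ^ 2 - 1 / F x ^ 2) / NN F x)
        {x | x ≠ 0 ∧ NN F x ≠ 0} := by
      refine ContDiffOn.div (ContDiffOn.sub ?_ ?_) (hN.mono hsub) fun x hx => hx.2
      · exact ((Sm_qu hh' hc hd).mono hsub).div ((hN.mono hsub).pow 2)
          fun x hx => pow_ne_zero 2 hx.2
      · exact contDiffOn_const.div (hF2.mono hsub)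
          fun x hx => pow_ne_zero 2 (hF.pos x hx.1).ne'
    exact h1
  · exact hdet.sqrt fun x hx => (hdpos x hx).ne'
  · intro x hx
    exact Real.sqrt_pos.2 (hdpos x hx)
  · intro x hx k
    have hGd : ∀ i j, DifferentiableAt ℝ (fun y => G F y i j) x := fun i j =>
      ((hG i j).contDiffAt (Sm_mem hx)).differentiableAt (by simp)
    have hdd : DifferentiableAt ℝ (fun y => (G F y).det) x :=
      (hdet.contDiffAt (Sm_mem hx)).differentiableAt (by simp)
    have hD : ∀ i j, (fderiv ℝ (fun y => G F y i j) x) (Pi.single k 1) = cc F x i j k :=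
      fun i j => rfl
    have e1 : (fderiv ℝ (fun y => (G F y).det) x) (Pi.single k 1) =
        tau F k x * (G F x).det := by
      have hfd : HasFDerivAt (fun y => (G F y).det)
          (fderiv ℝ (fun y => (G F y).det) x) x := hdd.hasFDerivAt
      have h2 := fun i j => (hGd i j).hasFDerivAt
      have h3 := ((((((h2 0 0).mul (h2 1 1)).mul (h2 2 2)).sub
        (((h2 0 0).mul (h2 1 2)).mul (h2 2 1))).sub
        (((h2 0 1).mul (h2 1 0)).mul (h2 2 2))).add (((h2 0 1).mul (h2 1 2)).mul (h2 2 0))).add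
        (((h2 0 2).mul (h2 1 0)).mul (h2 2 1)) |>.sub (((h2 0 2).mul (h2 1 1)).mul (h2 2 0))
      have h4 : (fun y => (G F y).det) = _ := funext (Sm_detexp F)
      have h5 := h3.fderiv
      have h6 : fderiv ℝ (fun y => (G F y).det) x = _ := (congrArg (fun f => fderiv ℝ f x) h4).trans h5
      rw [h6]
      simp only [FunLike.coe_add, FunLike.coe_sub, FunLike.coe_smul, Pi.add_apply, Pi.sub_apply,
        Pi.mul_apply, Pi.smul_apply, smul_eq_mul, hD]
      have h7 : tau F k x * (G F x).det =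
          ∑ i, ∑ j, (G F x).adjugate i j * cc F x i j k := by
        unfold tau tauA
        rw [Finset.sum_mul]
        refine Finset.sum_congr rfl fun i _ => ?_
        rw [Finset.sum_mul]
        refine Finset.sum_congr rfl fun j _ => ?_
        rw [← Sm_inv _ (hdpos x hx).ne' i j]
        unfold hh
        ring
      rw [h7, Matrix.adjugate_fin_three]
      obtain ⟨s1, -, s3, -⟩ := hsym x hx
      have c10 := s3 1 0 k
      have c20 := s3 2 0 k
      have c21 := s3 2 1 k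
      have g10 := s1 1 0
      have g20 := s1 2 0
      have g21 := s1 2 1
      simp only [Fin.sum_univ_three, Matrix.of_apply, Matrix.cons_val', Matrix.cons_val_zero,
        Matrix.cons_val_one, Matrix.cons_val, Matrix.empty_val', Matrix.cons_val_fin_one]
      rw [c10, c20, c21, g10, g20, g21]
      ring
    have hfs : fderiv ℝ (ww F) x =
        (1 / (2 * Real.sqrt (G F x).det)) • fderiv ℝ (fun y => (G F y).det) x :=
      (hdd.hasFDerivAt.sqrt (hdpos x hx).ne').fderiv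
    unfold pd
    rw [hfs]
    have hw : ww F x = Real.sqrt (G F x).det := rfl
    have hs : Real.sqrt (G F x).det * Real.sqrt (G F x).det = (G F x).det :=
      Real.mul_self_sqrt (hdpos x hx).le
    have hs0 : Real.sqrt (G F x).det ≠ 0 := (Real.sqrt_pos.2 (hdpos x hx)).ne'
    simp only [FunLike.coe_smul, Pi.smul_apply, smul_eq_mul]
    rw [e1, hw]
    field_simp
    rw [pow_two, hs]
    ring

end Pool.Agent.H935R3.LW
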