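import Mathlib
import Pool.Agent.H935R3.LW.Stmts

set_option autoImplicit false
open Matrix Filter Topology

namespace Pool.Agent.H935R3.LW

namespace TransAux

lemma pd_comp (P : Matrix (Fin 3) (Fin 3) ℝ) (f g : E3 → ℝ) (y : E3)
    (hf : DifferentiableAt ℝ f (P *ᵥ y)) (hg : g =ᶠ[𝓝 y] fun z => f (P *ᵥ z)) (k : Fin 3) :
    pd k g y = ∑ b, P b k * pd b f (P *ᵥ y) := by
  let L : E3 →L[ℝ] E3 := LinearMap.toContinuousLinearMap (Matrix.mulVecLin P)
  have h1 : HasFDerivAt (fun z => f (P *ᵥ z)) ((fderiv ℝ f (P *ᵥ y)).comp L) y :=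
    HasFDerivAt.comp (g := f) y hf.hasFDerivAt L.hasFDerivAt
  have h2 : L (Pi.single k 1) = ∑ b, P b k • (Pi.single b 1 : E3) := by
    change P *ᵥ (Pi.single k 1) = _
    ext a
    rw [Finset.sum_apply]
    simp [Matrix.mulVec_single, Pi.single_apply]
  rw [pd, hg.fderiv_eq, h1.fderiv]
  change fderiv ℝ f (P *ᵥ y) (L (Pi.single k 1)) = _
  rw [h2, map_sum]
  refine Finset.sum_congr rfl fun b _ => ?_
  rw [map_smul, smul_eq_mul]; rfl

lemma pd_sum (P : Matrix (Fin 3) (Fin 3) ℝ) (V : Fin 3 → E3 → ℝ) (y : E3)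
    (hV : ∀ i, DifferentiableAt ℝ (V i) y) (a k : Fin 3) :
    pd k (fun z => ∑ i, P a i * V i z) y = ∑ i, P a i * pd k (V i) y := by
  have h1 : HasFDerivAt (fun z => ∑ i, P a i * V i z) (∑ i, P a i • fderiv ℝ (V i) y) y := by
    refine HasFDerivAt.fun_sum fun i _ => ?_
    exact (hV i).hasFDerivAt.const_mul (P a i)
  rw [pd, h1.fderiv]
  simp [pd]

end TransAux

open TransAux

theorem taskTrans : TaskTrans := by
  intro hB hC hN hS F hF P hP y hy hNN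
  obtain ⟨hF', hcomp⟩ := hC hB F hF P hP
  set F' : E3 → ℝ := fun z => F (P *ᵥ z) with hF'def
  -- naturality at every nonzero point
  have key : ∀ z : E3, z ≠ 0 →
      (∀ a, tau F' a z = ∑ i, P i a * tau F i (P *ᵥ z)) ∧ NN F' z = NN F (P *ᵥ z) ∧
      (∀ a, Vt F a (P *ᵥ z) = ∑ i, P a i * Vt F' i z) ∧ ss F' z = ss F (P *ᵥ z) := by
    intro z hz
    obtain ⟨hPz, hG, hc, hd⟩ := hcomp z hz
    have hPu : IsUnit P.det := isUnit_iff_ne_zero.2 hP
    have hh1 : ∀ a b, hh F (P *ᵥ z) a b = ∑ i, ∑ j, P a i * P b j * hh F' z i j := by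
      have hGinv : (G F (P *ᵥ z))⁻¹ = P * (G F' z)⁻¹ * Pᵀ := by
        rw [hG, Matrix.mul_inv_rev, Matrix.mul_inv_rev]
        have e1 : P * (P⁻¹ * ((G F (P *ᵥ z))⁻¹ * (Pᵀ)⁻¹)) * Pᵀ =
            (P * P⁻¹) * (G F (P *ᵥ z))⁻¹ * ((Pᵀ)⁻¹ * Pᵀ) := by
          simp only [Matrix.mul_assoc]
        rw [e1, Matrix.mul_nonsing_inv _ hPu,
          Matrix.nonsing_inv_mul _ (by rwa [Matrix.det_transpose]), Matrix.one_mul, Matrix.mul_one]
      intro a b
      simp only [hh]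
      rw [hGinv, Matrix.mul_apply]
      simp only [Matrix.mul_apply, Matrix.transpose_apply, Finset.sum_mul]
      rw [Finset.sum_comm]
      refine Finset.sum_congr rfl fun i _ => Finset.sum_congr rfl fun j _ => ?_
      ring
    have h := hN P (hh F (P *ᵥ z)) (hh F' z) (cc F (P *ᵥ z)) (cc F' z) (dd F (P *ᵥ z)) (dd F' z)
      (P *ᵥ z) z (F (P *ᵥ z) ^ 2) hP hh1 hc hd rfl
    exact h
  -- differentiability
  have hopen : ∀ F₀ : E3 → ℝ, Hyp F₀ → IsOpen {x : E3 | x ≠ 0 ∧ NN F₀ x ≠ 0} := by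
    intro F₀ h₀
    have hc := (hS hB F₀ h₀).1.continuousOn
    have h1 : IsOpen {x : E3 | x ≠ 0} := isOpen_ne
    have h2 : {x : E3 | x ≠ 0 ∧ NN F₀ x ≠ 0} = {x : E3 | x ≠ 0} ∩ NN F₀ ⁻¹' {t | t ≠ 0} := rfl
    rw [h2]
    exact hc.isOpen_inter_preimage h1 isOpen_ne
  have hdV : ∀ F₀ : E3 → ℝ, Hyp F₀ → ∀ x : E3, x ≠ 0 → NN F₀ x ≠ 0 → ∀ a,
      DifferentiableAt ℝ (Vt F₀ a) x := by
    intro F₀ h₀ x hx hn a
    exact (((hS hB F₀ h₀).2.1 a).contDiffAt ((hopen F₀ h₀).mem_nhds ⟨hx, hn⟩)).differentiableAt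
      (by simp)
  have hds : ∀ F₀ : E3 → ℝ, Hyp F₀ → ∀ x : E3, x ≠ 0 → NN F₀ x ≠ 0 →
      DifferentiableAt ℝ (ss F₀) x := by
    intro F₀ h₀ x hx hn
    exact (((hS hB F₀ h₀).2.2.1).contDiffAt ((hopen F₀ h₀).mem_nhds ⟨hx, hn⟩)).differentiableAt
      (by simp)
  have hPy : P *ᵥ y ≠ 0 := (hcomp y hy).1
  obtain ⟨k1, k2, k3, k4⟩ := key y hy
  have hNN' : NN F' y ≠ 0 := by rw [k2]; exact hNN
  have hev : ∀ᶠ z in 𝓝 y, z ≠ 0 := isOpen_ne.mem_nhds hy
  -- Jacobians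
  have hJ : ∀ a k : Fin 3, ∑ b, P b k * pd b (Vt F a) (P *ᵥ y) = ∑ i, P a i * pd k (Vt F' i) y := by
    intro a k
    have e1 : (fun z => ∑ i, P a i * Vt F' i z) =ᶠ[𝓝 y] fun z => Vt F a (P *ᵥ z) := by
      filter_upwards [hev] with z hz
      exact ((key z hz).2.2.1 a).symm
    rw [← pd_comp P (Vt F a) _ y (hdV F hF _ hPy hNN a) e1 k]
    exact pd_sum P (Vt F') y (fun i => hdV F' hF' y hy hNN' i) a k
  have hs : ∀ k : Fin 3, pd k (ss F') y = ∑ b, P b k * pd b (ss F) (P *ᵥ y) := by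
    intro k
    refine pd_comp P (ss F) (ss F') y (hds F hF _ hPy hNN) ?_ k
    filter_upwards [hev] with z hz
    exact (key z hz).2.2.2
  refine ⟨k2, k4, ?_, ?_, ?_⟩
  · -- trace
    let J : Matrix (Fin 3) (Fin 3) ℝ := Matrix.of fun a b => pd b (Vt F a) (P *ᵥ y)
    let J' : Matrix (Fin 3) (Fin 3) ℝ := Matrix.of fun i k => pd k (Vt F' i) y
    have hJP : J * P = P * J' := by
      ext a k
      rw [Matrix.mul_apply, Matrix.mul_apply]
      simp only [J, J', Matrix.of_apply]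
      rw [← hJ a k]
      refine Finset.sum_congr rfl fun b _ => ?_
      ring
    have hPu : IsUnit P.det := isUnit_iff_ne_zero.2 hP
    have h1 : J = P * J' * P⁻¹ := by
      rw [← hJP, Matrix.mul_assoc, Matrix.mul_nonsing_inv _ hPu, Matrix.mul_one]
    have h2 : J.trace = J'.trace := by
      rw [h1, Matrix.trace_mul_comm, ← Matrix.mul_assoc, Matrix.nonsing_inv_mul _ hPu,
        Matrix.one_mul]
    exact h2
  · calc ∑ a, tau F a (P *ᵥ y) * Vt F a (P *ᵥ y)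
        = ∑ a, ∑ i, tau F a (P *ᵥ y) * (P a i * Vt F' i y) := by
          refine Finset.sum_congr rfl fun a _ => ?_
          rw [k3 a, Finset.mul_sum]
      _ = ∑ i, ∑ a, tau F a (P *ᵥ y) * (P a i * Vt F' i y) := Finset.sum_comm
      _ = ∑ a, tau F' a y * Vt F' a y := by
          refine Finset.sum_congr rfl fun i _ => ?_
          rw [k1 i, Finset.sum_mul]
          refine Finset.sum_congr rfl fun a _ => ?_
          ring
  · calc ∑ a, Vt F a (P *ᵥ y) * pd a (ss F) (P *ᵥ y)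
        = ∑ a, ∑ i, P a i * Vt F' i y * pd a (ss F) (P *ᵥ y) := by
          refine Finset.sum_congr rfl fun a _ => ?_
          rw [k3 a, Finset.sum_mul]
      _ = ∑ i, ∑ a, P a i * Vt F' i y * pd a (ss F) (P *ᵥ y) := Finset.sum_comm
      _ = ∑ a, Vt F' a y * pd a (ss F') y := by
          refine Finset.sum_congr rfl fun i _ => ?_
          rw [hs i, Finset.mul_sum]
          refine Finset.sum_congr rfl fun a _ => ?_
          ring

end Pool.Agent.H935R3.LW
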